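import Pool.Agent.E8helper35.Steiner.Ball

/-!
# Trees with separated edges: the number of edges near a point and in a terminal-free annulus
-/

set_option autoImplicit false

namespace Pool.Agent.E8helper35.Steiner

open Finset Metric

variable {E : Type} [NormedAddCommGroup E] [NormedSpace ℝ E]

lemma exists_dist_eq {p q c : E} {t : ℝ} (h1 : dist p c ≤ t) (h2 : t ≤ dist q c) :
    ∃ y ∈ segment ℝ p q, dist y c = t := by
  have hc : ContinuousOn (fun y => dist y c) (segment ℝ p q) :=
    (continuous_id.dist continuous_const).continuousOn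
  have h3 := (convex_segment p q).isPreconnected.intermediate_value
    (left_mem_segment ℝ p q) (right_mem_segment ℝ p q) hc
  obtain ⟨y, hy, hy2⟩ := h3 ⟨h1, h2⟩
  exact ⟨y, hy, hy2⟩

lemma exists_dist_eq_seg {V : Type} {x : V → E} {e : Sym2 V} {p q c : E} {t : ℝ}
    (hp : p ∈ seg x e) (hq : q ∈ seg x e) (h1 : dist p c ≤ t) (h2 : t ≤ dist q c) :
    ∃ y ∈ seg x e, dist y c = t := by
  obtain ⟨y, hy, hy2⟩ := exists_dist_eq h1 h2
  refine ⟨y, ?_, hy2⟩
  induction e using Sym2.ind with
  | _ u v =>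
    rw [seg_mk] at hp hq ⊢
    exact (convex_segment _ _).segment_subset hp hq hy

lemma mem_seg_of_mem {V : Type} {x : V → E} {e : Sym2 V} {v : V} (h : v ∈ e) : x v ∈ seg x e := by
  induction e using Sym2.ind with
  | _ u w =>
    rw [Sym2.mem_iff] at h
    rcases h with rfl | rfl
    · exact left_mem_segment ℝ _ _
    · exact right_mem_segment ℝ _ _

variable [FiniteDimensional ℝ E]

variable {V : Type} [Fintype V] {G : SimpleGraph V} {x : V → E} {A : Set V}

/-- constant of `near_le` -/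
noncomputable def k1 (E : Type) [NormedAddCommGroup E] [NormedSpace ℝ E] [FiniteDimensional ℝ E] :
    ℕ := 3 * kB E + cst E 1

/-- constant of `region_le` -/
noncomputable def k2 (E : Type) [NormedAddCommGroup E] [NormedSpace ℝ E] [FiniteDimensional ℝ E] :
    ℕ := cst E 128 * k1 E

/-- constant of `annulus_le` -/
noncomputable def k3 (E : Type) [NormedAddCommGroup E] [NormedSpace ℝ E] [FiniteDimensional ℝ E] :
    ℕ := 7 * k2 E + 3

open Classical in
/-- The edges with an endpoint in a set of vertices of degree three. -/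
lemma incident_le (W : Finset V) (hW : ∀ v ∈ W, (G.neighborSet v).ncard = 3)
    (F : Finset (Sym2 V)) (hF : ∀ e ∈ F, e ∈ G.edgeSet ∧ ∃ v ∈ e, v ∈ W) :
    F.card ≤ 3 * W.card := by
  have h1 : F ⊆ W.biUnion fun v => (G.neighborFinset v).image fun w => s(v, w) := by
    intro e he
    obtain ⟨h2, v, hv, hvW⟩ := hF e he
    obtain ⟨w, rfl⟩ := hv
    rw [SimpleGraph.mem_edgeSet] at h2
    exact mem_biUnion.2 ⟨v, hvW, mem_image.2 ⟨w, by simpa using h2, rfl⟩⟩
  refine (card_le_card h1).trans (card_biUnion_le.trans ?_)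
  refine (Finset.sum_le_card_nsmul W _ 3 ?_).trans (by rw [smul_eq_mul, mul_comm])
  intro v hv
  refine card_image_le.trans ?_
  rw [← hW v hv, ← Set.ncard_coe_finset]
  simp

/-- At most `k1 E` edges meet the ball of radius `r / 8` around a point at distance at least `r`
from the terminals. -/
theorem near_le (h : Good G x A) {p : E} {r : ℝ} (hr : 0 < r) (hA : ∀ a ∈ A, r ≤ dist (x a) p)
    (F : Finset (Sym2 V)) (hF : ∀ e ∈ F, e ∈ G.edgeSet)
    (hq : ∀ e ∈ F, ∃ q ∈ seg x e, dist q p ≤ r / 8) : F.card ≤ k1 E := by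
  classical
  have h1 : (F.filter fun e => ∃ v ∈ e, v ∈ inBall x p (r / 4)).card ≤ 3 * kB E := by
    refine (incident_le (G := G) (inBall x p (r / 4)) ?_ _ ?_).trans
      (Nat.mul_le_mul_left _ (ball_le h (by positivity) ?_))
    · intro v hv
      refine h.deg v fun ha => ?_
      have h1 := hA v ha
      rw [mem_inBall] at hv
      linarith
    · intro e he
      obtain ⟨h2, h3⟩ := mem_filter.1 he
      exact ⟨hF e h2, h3⟩
    · intro a ha
      have := hA a ha
      linarith
  have h2 : (F.filter fun e => ¬ ∃ v ∈ e, v ∈ inBall x p (r / 4)).card ≤ cst E 1 := by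
    refine edges_le h (σ := r / 8) (by positivity) p _ ?_ ?_
    · intro e he
      exact hF e (mem_filter.1 he).1
    · intro e he
      obtain ⟨h3, h4⟩ := mem_filter.1 he
      obtain ⟨q, hq1, hq2⟩ := hq e h3
      refine ⟨q, hq1, ?_, by linarith⟩
      intro v hv
      by_contra hlt
      push Not at hlt
      refine h4 ⟨v, hv, mem_inBall.2 ?_⟩
      have := dist_triangle_left (x v) p q
      linarith
  have h3 := card_filter_add_card_filter_not (s := F) (fun e => ∃ v ∈ e, v ∈ inBall x p (r / 4))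
  rw [k1]
  omega

/-- At most `k2 E` edges meet the part of a ball of radius `2 t` at distance at least `t / 8` from
the terminals. -/
theorem region_le (h : Good G x A) {p : E} {t : ℝ} (ht : 0 < t)
    (F : Finset (Sym2 V)) (hF : ∀ e ∈ F, e ∈ G.edgeSet)
    (hq : ∀ e ∈ F, ∃ q ∈ seg x e, dist q p ≤ 2 * t ∧ ∀ a ∈ A, t / 8 ≤ dist (x a) q) :
    F.card ≤ k2 E := by
  classical
  obtain ⟨C, hC1, hC2, hC3⟩ := cover (E := E) 128 {q | dist q p ≤ 2 * t ∧ ∀ a ∈ A, t / 8 ≤ dist (x a) q} p
    (t / 64) (by positivity) (fun y hy => by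
      have := hy.1
      linarith)
  have h1 : F ⊆ C.biUnion fun z => F.filter fun e => ∃ q ∈ seg x e, dist q z ≤ (t / 8) / 8 := by
    intro e he
    obtain ⟨q, hq1, hq2, hq3⟩ := hq e he
    obtain ⟨z, hz, hz2⟩ := hC3 q ⟨hq2, hq3⟩
    exact mem_biUnion.2 ⟨z, hz, mem_filter.2 ⟨he, q, hq1, by linarith⟩⟩
  refine (card_le_card h1).trans (card_biUnion_le.trans ?_)
  refine (Finset.sum_le_card_nsmul C _ (k1 E) ?_).trans ?_
  · intro z hz
    refine near_le h (r := t / 8) (by positivity) (p := z) (hC1 hz).2 _ ?_ ?_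
    · intro e he
      exact hF e (mem_filter.1 he).1
    · intro e he
      exact (mem_filter.1 he).2
  · rw [smul_eq_mul, k2]
    exact Nat.mul_le_mul_right _ hC2

/-- The number of edges in a terminal-free annulus, if the number of edges which leave a ball of
radius `t₁` is at most `k2 E + 1`. -/
lemma annulus_aux (h : Good G x A) {a₀ : E} {t₁ D : ℝ} (hD : 0 ≤ D) (X : Set V)
    (F : Finset (Sym2 V)) (hF : ∀ e ∈ F, e ∈ G.edgeSet)
    (y : Sym2 V → E) (hy1 : ∀ e ∈ F, y e ∈ seg x e) (hy2 : ∀ e ∈ F, 2 * D < dist (y e) a₀)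
    (hX1 : ∀ a ∈ A, a ∈ X → dist (x a) a₀ ≤ D ∧ dist (x a) a₀ < t₁)
    (hX2 : ∀ a ∈ A, a ∉ X → ∀ e ∈ F, 4 * dist (y e) a₀ < dist (x a) a₀)
    (ht₁ : ∀ C : Finset (Sym2 V), (∀ e ∈ C, e ∈ G.edgeSet ∧
      ∃ v w, e = s(v, w) ∧ dist (x v) a₀ < t₁ ∧ t₁ ≤ dist (x w) a₀) → C.card ≤ k2 E + 1)
    (hin : ∀ e ∈ F, ¬ ∀ v ∈ e, dist (x v) a₀ < t₁) :
    F.card ≤ k3 E := by
  classical
  rcases F.eq_empty_or_nonempty with rfl | hne
  · simp
  obtain ⟨e₀, he₀, hmax⟩ := F.exists_max_image (fun e => dist (y e) a₀) hne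
  set R := dist (y e₀) a₀ with hR
  have hR0 : 0 < R := lt_of_le_of_lt (by linarith) (hy2 e₀ he₀)
  have hDR : 2 * D < R := hy2 e₀ he₀
  set t₂ := 2 * R with ht₂
  -- edges which meet the outer sphere
  have hC2 : ∀ C : Finset (Sym2 V), (∀ e ∈ C, e ∈ G.edgeSet ∧ ∃ q ∈ seg x e, dist q a₀ = t₂) →
      C.card ≤ k2 E := by
    intro C hC
    refine region_le h (p := a₀) (t := t₂) (by positivity) C (fun e he => (hC e he).1) ?_
    intro e he
    obtain ⟨q, hq1, hq2⟩ := (hC e he).2
    refine ⟨q, hq1, by rw [hq2]; linarith, ?_⟩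
    intro a ha
    by_cases haX : a ∈ X
    · have h1 := (hX1 a ha haX).1
      have h2 := dist_triangle_left q a₀ (x a)
      linarith
    · have h1 := hX2 a ha haX e₀ he₀
      have h2 := dist_triangle_right (x a) a₀ q
      rw [dist_comm a₀ q] at h2
      linarith
  let W : Finset V := univ.filter fun v => t₁ ≤ dist (x v) a₀ ∧ dist (x v) a₀ < t₂
  have hWA : ∀ v ∈ W, v ∉ A := by
    intro v hv ha
    have h1 := (mem_filter.1 hv).2
    by_cases haX : v ∈ X
    · have := (hX1 v ha haX).2
      linarith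
    · have := hX2 v ha haX e₀ he₀
      linarith
  have hWcard : W.card ≤ 2 * k2 E + 1 := by
    have h1 := boundary_ge G h.acyclic W (fun v hv => by
      rw [← h.deg v (hWA v hv), ← SimpleGraph.card_neighborFinset_eq_degree,
        ← Set.ncard_coe_finset]
      simp)
    let P : Finset (Σ _ : V, V) := W.sigma fun v => G.neighborFinset v \ W
    have hP : P.card = ∑ v ∈ W, (G.neighborFinset v \ W).card := card_sigma _ _
    have hsplit : P.card ≤ (P.filter fun p => dist (x p.2) a₀ < t₁).card +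
        (P.filter fun p => ¬ dist (x p.2) a₀ < t₁).card := by
      rw [card_filter_add_card_filter_not]
    have hPmem : ∀ p ∈ P, G.Adj p.1 p.2 ∧ t₁ ≤ dist (x p.1) a₀ ∧ dist (x p.1) a₀ < t₂ ∧
        (t₁ ≤ dist (x p.2) a₀ → t₂ ≤ dist (x p.2) a₀) := by
      intro p hp
      have h2 := mem_sigma.1 hp
      have h3 := mem_sdiff.1 h2.2
      have h4 := (mem_filter.1 h2.1).2
      refine ⟨by simpa using h3.1, h4.1, h4.2, fun h5 => ?_⟩
      by_contra h6
      push Not at h6
      exact h3.2 (mem_filter.2 ⟨mem_univ _, h5, h6⟩)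
    have hA1 : (P.filter fun p => dist (x p.2) a₀ < t₁).card ≤ k2 E + 1 := by
      have h2 : Set.InjOn (fun p : Σ _ : V, V => s(p.1, p.2))
          ((P.filter fun p => dist (x p.2) a₀ < t₁ : Finset _) : Set (Σ _ : V, V)) := by
        intro p hp q hq hpq
        have hp' := mem_filter.1 (mem_coe.1 hp)
        have hq' := mem_filter.1 (mem_coe.1 hq)
        simp only [Sym2.eq_iff] at hpq
        rcases hpq with ⟨h3, h4⟩ | ⟨h3, h4⟩
        · cases p; cases q; simp only at h3 h4; subst h3 h4; rfl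
        · have h5 := (hPmem p hp'.1).2.1
          have h6 := hq'.2
          rw [h3] at h5
          linarith
      rw [← card_image_of_injOn h2]
      refine ht₁ _ ?_
      intro e he
      obtain ⟨p, hp, rfl⟩ := mem_image.1 he
      obtain ⟨h3, h4⟩ := mem_filter.1 hp
      exact ⟨(hPmem p h3).1, p.2, p.1, Sym2.eq_swap, h4, (hPmem p h3).2.1⟩
    have hA2 : (P.filter fun p => ¬ dist (x p.2) a₀ < t₁).card ≤ k2 E := by
      have h2 : Set.InjOn (fun p : Σ _ : V, V => s(p.1, p.2))
          ((P.filter fun p => ¬ dist (x p.2) a₀ < t₁ : Finset _) : Set (Σ _ : V, V)) := by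
        intro p hp q hq hpq
        have hp' := mem_filter.1 (mem_coe.1 hp)
        have hq' := mem_filter.1 (mem_coe.1 hq)
        simp only [Sym2.eq_iff] at hpq
        rcases hpq with ⟨h3, h4⟩ | ⟨h3, h4⟩
        · cases p; cases q; simp only at h3 h4; subst h3 h4; rfl
        · have h5 := (hPmem p hp'.1).2.2.1
          have h6 := (hPmem q hq'.1).2.2.2 (not_lt.1 hq'.2)
          rw [h3] at h5
          linarith
      rw [← card_image_of_injOn h2]
      refine hC2 _ ?_
      intro e he
      obtain ⟨p, hp, rfl⟩ := mem_image.1 he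
      obtain ⟨h3, h4⟩ := mem_filter.1 hp
      have h5 := hPmem p h3
      refine ⟨h5.1, ?_⟩
      exact exists_dist_eq_seg (mem_seg_of_mem (Sym2.mem_mk_left _ _))
        (mem_seg_of_mem (Sym2.mem_mk_right _ _)) h5.2.2.1.le (h5.2.2.2 (not_lt.1 h4))
    omega
  -- the edges of `F`
  have hF1 : (F.filter fun e => ∃ v ∈ e, v ∈ W).card ≤ 3 * W.card := by
    refine incident_le (G := G) W (fun v hv => h.deg v (hWA v hv)) _ ?_
    intro e he
    obtain ⟨h2, h3⟩ := mem_filter.1 he
    exact ⟨hF e h2, h3⟩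
  have hF2 : (F.filter fun e => ¬ ∃ v ∈ e, v ∈ W).card ≤ k2 E := by
    refine hC2 _ ?_
    intro e he
    obtain ⟨h2, h3⟩ := mem_filter.1 he
    refine ⟨hF e h2, ?_⟩
    have h4 := hin e h2
    push Not at h4
    obtain ⟨v, hv, hv2⟩ := h4
    have h5 : t₂ ≤ dist (x v) a₀ := by
      by_contra h6
      push Not at h6
      exact h3 ⟨v, hv, mem_filter.2 ⟨mem_univ _, hv2, h6⟩⟩
    have h6 : dist (y e) a₀ ≤ t₂ := by
      have := hmax e h2
      linarith
    exact exists_dist_eq_seg (hy1 e h2) (mem_seg_of_mem hv) h6 h5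
  have h3 := card_filter_add_card_filter_not (s := F) (fun e => ∃ v ∈ e, v ∈ W)
  rw [k3]
  omega

/-- **Annulus lemma.** Let all terminals in `X` be at distance at most `D` from `a₀`. The number of
edges `e` with a point `y e` at distance more than `2 D` from `a₀` such that all terminals which
are not in `X` are at distance more than `4 |y e - a₀|` from `a₀` is at most `k3 E`. If `D = 0`
then `a₀` has to be a terminal. -/
theorem annulus_le (h : Good G x A) {a₀ : V} (ha₀ : a₀ ∈ A) {D : ℝ} (hD : 0 ≤ D) (X : Set V)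
    (F : Finset (Sym2 V)) (hF : ∀ e ∈ F, e ∈ G.edgeSet)
    (y : Sym2 V → E) (hy1 : ∀ e ∈ F, y e ∈ seg x e) (hy2 : ∀ e ∈ F, 2 * D < dist (y e) (x a₀))
    (hX1 : ∀ a ∈ A, a ∈ X → dist (x a) (x a₀) ≤ D)
    (hX2 : ∀ a ∈ A, a ∉ X → ∀ e ∈ F, 4 * dist (y e) (x a₀) < dist (x a) (x a₀)) :
    F.card ≤ k3 E := by
  classical
  rcases F.eq_empty_or_nonempty with rfl | ⟨e₀, he₀⟩
  · simp
  rcases hD.eq_or_lt with hD0 | hD0
  · subst hD0
    -- a small ball around the terminal
    obtain ⟨t₁, ht0, ht1⟩ : ∃ t : ℝ, 0 < t ∧ ∀ v, dist (x v) (x a₀) < t → v = a₀ := by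
      by_cases hne : (univ.filter fun v : V => v ≠ a₀).Nonempty
      · obtain ⟨v₁, hv₁, hmin⟩ := exists_min_image _ (fun v => dist (x v) (x a₀)) hne
        refine ⟨dist (x v₁) (x a₀), ?_, ?_⟩
        · rw [dist_pos]
          exact fun he => (mem_filter.1 hv₁).2 (h.inj he)
        · intro v hv
          by_contra hva
          have := hmin v (mem_filter.2 ⟨mem_univ _, hva⟩)
          linarith
      · refine ⟨1, one_pos, fun v _ => ?_⟩
        by_contra hva
        exact hne ⟨v, mem_filter.2 ⟨mem_univ _, hva⟩⟩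
    refine annulus_aux h (t₁ := t₁) le_rfl X F hF y hy1 hy2 ?_ hX2 ?_ ?_
    · intro a ha haX
      exact ⟨hX1 a ha haX, lt_of_le_of_lt (hX1 a ha haX) ht0⟩
    · intro C hC
      have h1 : C ⊆ (G.neighborFinset a₀).image fun w => s(a₀, w) := by
        intro e he
        obtain ⟨h2, v, w, rfl, h3, h4⟩ := hC e he
        rw [ht1 v h3] at h2 ⊢
        exact mem_image.2 ⟨w, by simpa using h2, rfl⟩
      have h2 : (G.neighborFinset a₀).card = 1 := by
        rw [← h.leaf a₀ ha₀, ← Set.ncard_coe_finset]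
        simp
      have h3 := (card_le_card h1).trans card_image_le
      omega
    · intro e he hall
      have h1 := hF e he
      induction e using Sym2.ind with
      | _ u v =>
        have h2 := ht1 u (hall u (Sym2.mem_mk_left _ _))
        have h3 := ht1 v (hall v (Sym2.mem_mk_right _ _))
        rw [SimpleGraph.mem_edgeSet, h2, h3] at h1
        exact G.loopless.irrefl _ h1
  · refine annulus_aux h (t₁ := 3 / 2 * D) hD X F hF y hy1 hy2 ?_ hX2 ?_ ?_
    · intro a ha haX
      have := hX1 a ha haX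
      exact ⟨this, by linarith⟩
    · intro C hC
      refine (region_le h (p := x a₀) (t := D) hD0 C (fun e he => (hC e he).1) ?_).trans
        (Nat.le_succ _)
      intro e he
      obtain ⟨h2, v, w, rfl, h3, h4⟩ := hC e he
      obtain ⟨q, hq1, hq2⟩ := exists_dist_eq_seg (mem_seg_of_mem (Sym2.mem_mk_left v w))
        (mem_seg_of_mem (Sym2.mem_mk_right v w)) h3.le h4
      refine ⟨q, hq1, by linarith, ?_⟩
      intro a ha
      by_cases haX : a ∈ X
      · have h5 := hX1 a ha haX
        have h6 := dist_triangle_left q (x a₀) (x a)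
        linarith
      · have h5 := hX2 a ha haX e₀ he₀
        have h6 := hy2 e₀ he₀
        have h7 := dist_triangle_right (x a) (x a₀) q
        rw [dist_comm (x a₀) q] at h7
        linarith
    · intro e he hall
      have h1 := hy1 e he
      have h2 := hy2 e he
      have h3 : seg x e ⊆ ball (x a₀) (3 / 2 * D) := by
        induction e using Sym2.ind with
        | _ u v =>
          rw [seg_mk]
          exact (convex_ball _ _).segment_subset (mem_ball.2 (hall u (Sym2.mem_mk_left _ _)))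
            (mem_ball.2 (hall v (Sym2.mem_mk_right _ _)))
      have h4 := mem_ball.1 (h3 h1)
      linarith

end Pool.Agent.E8helper35.Steiner
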