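import Mathlib

/-!
# Packing and covering numbers of balls in a finite-dimensional normed space
-/

set_option autoImplicit false

namespace Pool.Agent.E8helper35.Steiner

open Finset Metric

variable (E : Type) [NormedAddCommGroup E] [NormedSpace ℝ E] [FiniteDimensional ℝ E]

/-- A finite cover of a ball by balls of radius `1/2`. -/
lemma exists_cover (ρ : ℝ) : ∃ t : Finset E, closedBall (0 : E) ρ ⊆ ⋃ y ∈ t, ball y (1 / 2) := by
  have : ProperSpace E := FiniteDimensional.proper ℝ E
  obtain ⟨t, -, htf, ht⟩ := (isCompact_closedBall (0 : E) ρ).finite_cover_balls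
    (show (0 : ℝ) < 1 / 2 by norm_num)
  exact ⟨htf.toFinset, by simpa using ht⟩

/-- A packing and covering constant for the ratio `ρ`. -/
noncomputable def cst (ρ : ℝ) : ℕ := (exists_cover E ρ).choose.card

variable {E}

lemma pack (ρ : ℝ) {ι : Type*} (F : Finset ι) (q : ι → E) (c : E) (s : ℝ) (hs : 0 < s)
    (h1 : ∀ i ∈ F, dist (q i) c ≤ ρ * s)
    (h2 : ∀ i ∈ F, ∀ j ∈ F, i ≠ j → s ≤ dist (q i) (q j)) : F.card ≤ cst E ρ := by
  classical
  have ht := (exists_cover E ρ).choose_spec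
  set t := (exists_cover E ρ).choose with htdef
  have key : ∀ i ∈ F, ∃ y ∈ t, dist (s⁻¹ • (q i - c)) y < 1 / 2 := by
    intro i hi
    have : s⁻¹ • (q i - c) ∈ closedBall (0 : E) ρ := by
      rw [mem_closedBall, dist_zero_right, norm_smul, norm_inv, Real.norm_of_nonneg hs.le,
        ← dist_eq_norm, inv_mul_le_iff₀ hs, mul_comm]
      exact h1 i hi
    simpa using ht this
  choose! f hf1 hf2 using key
  refine Finset.card_le_card_of_injOn f hf1 ?_
  intro i hi j hj hij
  by_contra hne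
  have h3 := h2 i hi j hj hne
  have h4 := hf2 i hi
  have h5 := hf2 j hj
  rw [← hij] at h5
  have h6 : dist (s⁻¹ • (q i - c)) (s⁻¹ • (q j - c)) < 1 := by
    have := dist_triangle_right (s⁻¹ • (q i - c)) (s⁻¹ • (q j - c)) (f i)
    linarith
  rw [dist_eq_norm, ← smul_sub, norm_smul, norm_inv, Real.norm_of_nonneg hs.le,
    sub_sub_sub_cancel_right, ← dist_eq_norm, inv_mul_lt_iff₀ hs, mul_one] at h6
  linarith

lemma cover (ρ : ℝ) (M : Set E) (c : E) (s : ℝ) (hs : 0 < s) (hM : ∀ y ∈ M, dist y c ≤ ρ * s) :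
    ∃ F : Finset E, (F : Set E) ⊆ M ∧ F.card ≤ cst E ρ ∧ ∀ y ∈ M, ∃ z ∈ F, dist y z < s := by
  classical
  have ht := (exists_cover E ρ).choose_spec
  set t := (exists_cover E ρ).choose with htdef
  let P : E → Prop := fun y => ∃ m ∈ M, dist (s⁻¹ • (m - c)) y < 1 / 2
  let g : E → E := fun y => if h : P y then h.choose else c
  have hg : ∀ y, P y → g y ∈ M ∧ dist (s⁻¹ • (g y - c)) y < 1 / 2 := by
    intro y hy
    have : g y = hy.choose := dif_pos hy
    rw [this]
    exact hy.choose_spec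
  refine ⟨(t.filter P).image g, ?_, ?_, ?_⟩
  · intro z hz
    simp only [coe_image, Set.mem_image, mem_coe, mem_filter] at hz
    obtain ⟨y, ⟨-, hy⟩, rfl⟩ := hz
    exact (hg y hy).1
  · exact card_image_le.trans (card_filter_le _ _)
  · intro m hm
    have : s⁻¹ • (m - c) ∈ closedBall (0 : E) ρ := by
      rw [mem_closedBall, dist_zero_right, norm_smul, norm_inv, Real.norm_of_nonneg hs.le,
        ← dist_eq_norm, inv_mul_le_iff₀ hs, mul_comm]
      exact hM m hm
    have h3 := ht this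
    simp only [Set.mem_iUnion, mem_ball, exists_prop] at h3
    obtain ⟨y, hy, hy2⟩ := h3
    have hP : P y := ⟨m, hm, hy2⟩
    refine ⟨g y, mem_image_of_mem _ (mem_filter.2 ⟨hy, hP⟩), ?_⟩
    have h4 := (hg y hP).2
    have h6 : dist (s⁻¹ • (m - c)) (s⁻¹ • (g y - c)) < 1 := by
      have := dist_triangle_right (s⁻¹ • (m - c)) (s⁻¹ • (g y - c)) y
      linarith
    rwa [dist_eq_norm, ← smul_sub, norm_smul, norm_inv, Real.norm_of_nonneg hs.le,
      sub_sub_sub_cancel_right, ← dist_eq_norm, inv_mul_lt_iff₀ hs, mul_one] at h6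

end Pool.Agent.E8helper35.Steiner
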