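import Pool.Agent.E8helper35.Steiner.Forest
import Pool.Agent.E8helper35.Steiner.Pack

/-!
# Trees with separated edges: the number of branching vertices in a terminal-free ball
-/

set_option autoImplicit false

namespace Pool.Agent.E8helper35.Steiner

open Finset Metric

variable {E : Type} [NormedAddCommGroup E] [NormedSpace ℝ E]

/-- The segment of an edge. -/
def seg {V : Type} (x : V → E) : Sym2 V → Set E :=
  Sym2.lift ⟨fun u v => segment ℝ (x u) (x v), fun u v => segment_symm ℝ (x u) (x v)⟩

@[simp] lemma seg_mk {V : Type} (x : V → E) (u v : V) : seg x s(u, v) = segment ℝ (x u) (x v) := rfl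

/-- A forest in `E` with terminals `A` (leaves), all other vertices having degree three, such that
a point of an edge is at least as far from all other edges as from the endpoints of its edge. -/
structure Good {V : Type} (G : SimpleGraph V) (x : V → E) (A : Set V) : Prop where
  acyclic : G.IsAcyclic
  inj : Function.Injective x
  deg : ∀ v, v ∉ A → (G.neighborSet v).ncard = 3
  leaf : ∀ v ∈ A, (G.neighborSet v).ncard = 1
  sep : ∀ u v, G.Adj u v → ∀ e ∈ G.edgeSet, e ≠ s(u, v) → ∀ q ∈ segment ℝ (x u) (x v),
    ∀ q' ∈ seg x e, min (dist q (x u)) (dist q (x v)) ≤ dist q q'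

variable [FiniteDimensional ℝ E]

variable {V : Type} [Fintype V] {G : SimpleGraph V} {x : V → E} {A : Set V}

lemma edges_le (h : Good G x A) {ρ σ : ℝ} (hσ : 0 < σ) (c : E) (F : Finset (Sym2 V))
    (hF : ∀ e ∈ F, e ∈ G.edgeSet)
    (hq : ∀ e ∈ F, ∃ q ∈ seg x e, (∀ v ∈ e, σ ≤ dist q (x v)) ∧ dist q c ≤ ρ * σ) :
    F.card ≤ cst E ρ := by
  choose! q hq1 hq2 hq3 using hq
  refine pack ρ F q c σ hσ hq3 ?_
  intro e he e' he' hne
  have h1 := hF e he
  have h2 := hq1 e he
  have h3 := hq2 e he
  induction e using Sym2.ind with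
  | _ u v =>
    rw [SimpleGraph.mem_edgeSet] at h1
    have h4 := h.sep u v h1 e' (hF e' he') hne.symm (q s(u, v)) h2 (q e') (hq1 e' he')
    refine le_trans (le_min (h3 u ?_) (h3 v ?_)) h4
    · exact Sym2.mem_mk_left u v
    · exact Sym2.mem_mk_right u v

open Classical in
/-- The vertices in an open ball. -/
noncomputable def inBall (x : V → E) (c : E) (r : ℝ) : Finset V :=
  univ.filter fun v => dist (x v) c < r

lemma mem_inBall {c : E} {r : ℝ} {v : V} : v ∈ inBall x c r ↔ dist (x v) c < r := by
  simp [inBall]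

/-- covering constant for the ball lemma -/
noncomputable def kD (E : Type) [NormedAddCommGroup E] [NormedSpace ℝ E] [FiniteDimensional ℝ E] :
    ℕ := cst E 6

/-- number of spheres in the ball lemma -/
noncomputable def kM (E : Type) [NormedAddCommGroup E] [NormedSpace ℝ E] [FiniteDimensional ℝ E] :
    ℕ := 6 * kD E + 1

/-- the constant of the ball lemma -/
noncomputable def kB (E : Type) [NormedAddCommGroup E] [NormedSpace ℝ E] [FiniteDimensional ℝ E] :
    ℕ := 4 * cst E (8 * kM E)

lemma ball_step (h : Good G x A) {c : E} {r : ℝ} (hr : 0 < r)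
    (hA : ∀ a ∈ A, 2 * r ≤ dist (x a) c)
    (hmax : ∀ (c' : E) (r' : ℝ), 0 < r' → (∀ a ∈ A, 2 * r' ≤ dist (x a) c') →
      (inBall x c' r').card ≤ (inBall x c r).card) :
    (inBall x c r).card ≤ kB E := by
  classical
  set k := (inBall x c r).card with hk
  set m := kM E with hm
  have hm0 : 0 < m := by rw [hm, kM]; omega
  have hmR : (0 : ℝ) < m := by exact_mod_cast hm0
  set lam : ℝ := r / (2 * m) with hlam
  have hlam0 : 0 < lam := by positivity
  have hmlam : m * lam = r / 2 := by rw [hlam]; field_simp
  let W : ℕ → Finset V := fun i => inBall x c (r + (i + 1) * lam)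
  let W' : Finset V := inBall x c (3 / 2 * r)
  have hile : ∀ i ∈ range m, r + ((i : ℝ) + 1) * lam ≤ 3 / 2 * r := by
    intro i hi
    have h1 : ((i : ℝ) + 1) ≤ m := by
      have := mem_range.1 hi
      exact_mod_cast this
    nlinarith
  have hWW : ∀ i ∈ range m, W i ⊆ W' := by
    intro i hi v hv
    rw [mem_inBall] at hv ⊢
    exact lt_of_lt_of_le hv (hile i hi)
  have hdegW : ∀ v ∈ W', G.degree v = 3 := by
    intro v hv
    have hvA : v ∉ A := by
      intro ha
      have h1 := hA v ha
      rw [mem_inBall] at hv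
      linarith
    rw [← h.deg v hvA, ← SimpleGraph.card_neighborFinset_eq_degree, ← Set.ncard_coe_finset]
    simp
  -- the balls of radius `3r/2`
  have hcov : W'.card ≤ kD E * k := by
    obtain ⟨F, hF1, hF2, hF3⟩ := cover (E := E) 6 (closedBall c (3 / 2 * r)) c (r / 4)
      (by positivity) (fun y hy => by
        rw [mem_closedBall] at hy
        linarith)
    have h1 : W' ⊆ F.biUnion fun z => inBall x z (r / 4) := by
      intro v hv
      rw [mem_inBall] at hv
      obtain ⟨z, hz, hz2⟩ := hF3 (x v) (mem_closedBall.2 hv.le)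
      exact mem_biUnion.2 ⟨z, hz, mem_inBall.2 hz2⟩
    refine (card_le_card h1).trans (card_biUnion_le.trans ?_)
    refine (Finset.sum_le_card_nsmul F _ k ?_).trans ?_
    · intro z hz
      refine hmax z (r / 4) (by positivity) ?_
      intro a ha
      have h2 := hA a ha
      have h3 := mem_closedBall.1 (hF1 hz)
      have h4 := dist_triangle (x a) z c
      linarith
    · rw [smul_eq_mul]
      exact Nat.mul_le_mul_right _ hF2
  let P : Finset (V × V) := (univ : Finset (V × V)).filter fun p => p.1 ∈ W' ∧ G.Adj p.1 p.2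
  have hPcard : P.card = 3 * W'.card := by
    have h1 : P = (W'.sigma (fun v => G.neighborFinset v)).map
        (Equiv.sigmaEquivProd V V).toEmbedding := by
      ext ⟨v, w⟩
      simp only [P, mem_filter, mem_univ, true_and]
      constructor
      · rintro ⟨h4, h5⟩
        exact mem_map.2 ⟨⟨v, w⟩, mem_sigma.2 ⟨h4, by simpa using h5⟩, rfl⟩
      · intro h6
        obtain ⟨⟨v', w'⟩, h7, h8⟩ := mem_map.1 h6
        obtain ⟨rfl, rfl⟩ := Prod.mk.inj h8
        have h9 := mem_sigma.1 h7
        exact ⟨h9.1, by simpa using h9.2⟩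
    rw [h1, card_map, card_sigma]
    have : ∀ v ∈ W', (G.neighborFinset v).card = 3 := fun v hv => by
      rw [SimpleGraph.card_neighborFinset_eq_degree, hdegW v hv]
    rw [Finset.sum_congr rfl this, Finset.sum_const, smul_eq_mul, mul_comm]
  let R : ℕ → V × V → Prop := fun i p => p.1 ∈ W i ∧ p.2 ∉ W i
  have hrow : ∀ i ∈ range m, k ≤ (bipartiteAbove R P i).card := by
    intro i hi
    have h1 := boundary_ge G h.acyclic (W i) (fun v hv => hdegW v (hWW i hi hv))
    have h2 : k ≤ (W i).card := by
      refine card_le_card ?_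
      intro v hv
      rw [mem_inBall] at hv ⊢
      have : 0 ≤ ((i : ℝ) + 1) * lam := by positivity
      linarith
    refine h2.trans (h1.trans (le_of_eq ?_))
    have h3 : bipartiteAbove R P i = ((W i).sigma (fun v => G.neighborFinset v \ W i)).map
        (Equiv.sigmaEquivProd V V).toEmbedding := by
      ext ⟨v, w⟩
      simp only [bipartiteAbove, mem_filter, P, R, mem_univ, true_and]
      constructor
      · rintro ⟨⟨h4, h5⟩, h6, h7⟩
        exact mem_map.2 ⟨⟨v, w⟩, mem_sigma.2 ⟨h6, mem_sdiff.2 ⟨by simpa using h5, h7⟩⟩, rfl⟩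
      · intro h8
        obtain ⟨⟨v', w'⟩, h9, h10⟩ := mem_map.1 h8
        obtain ⟨rfl, rfl⟩ := Prod.mk.inj h10
        have h11 := mem_sigma.1 h9
        have h12 := mem_sdiff.1 h11.2
        exact ⟨⟨hWW i hi h11.1, by simpa using h12.1⟩, h11.1, h12.2⟩
    rw [h3, card_map, card_sigma]
  have hcount := sum_card_bipartiteAbove_eq_sum_card_bipartiteBelow (s := range m) (t := P) R
  let Lg : Finset (V × V) := P.filter fun p => lam ≤ dist (x p.1) (x p.2)
  have hcol : ∀ p ∈ P, (bipartiteBelow R (range m) p).card ≤
      1 + if lam ≤ dist (x p.1) (x p.2) then m else 0 := by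
    intro p hp
    split_ifs with hlong
    · refine (card_le_card (filter_subset _ _)).trans ?_
      rw [card_range]; omega
    · push Not at hlong
      rw [add_zero]
      refine card_le_one.2 ?_
      have key : ∀ i ∈ bipartiteBelow R (range m) p, ∀ j ∈ bipartiteBelow R (range m) p,
          ¬ i < j := by
        intro i hi j hj hij
        simp only [bipartiteBelow, mem_filter, R, W, mem_inBall, not_lt] at hi hj
        have h1 := hi.2.1
        have h2 := hj.2.2
        have h3 := dist_triangle_left (x p.2) c (x p.1)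
        have h4 : (i : ℝ) + 1 ≤ j := by exact_mod_cast hij
        nlinarith
      intro i hi j hj
      rcases lt_trichotomy i j with hlt | heq | hgt
      · exact absurd hlt (key i hi j hj)
      · exact heq
      · exact absurd hgt (key j hj i hi)
  have hsum : m * k ≤ P.card + m * Lg.card := by
    calc m * k = ∑ i ∈ range m, k := by simp
      _ ≤ ∑ i ∈ range m, (bipartiteAbove R P i).card := sum_le_sum hrow
      _ = ∑ p ∈ P, (bipartiteBelow R (range m) p).card := hcount
      _ ≤ ∑ p ∈ P, (1 + if lam ≤ dist (x p.1) (x p.2) then m else 0) := sum_le_sum hcol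
      _ = P.card + m * Lg.card := by
        rw [sum_add_distrib, sum_ite, sum_const, sum_const, sum_const]
        simp [Lg, mul_comm]
  -- long edges
  have hLg : Lg.card ≤ 2 * cst E (8 * m) := by
    let F : Finset (Sym2 V) := Lg.image fun p => s(p.1, p.2)
    have h1 : Lg.card ≤ 2 * F.card := by
      refine card_le_mul_card_image Lg 2 ?_
      intro e he
      induction e using Sym2.ind with
      | _ u v =>
        refine (card_le_card (t := {(u, v), (v, u)}) ?_).trans card_le_two
        intro p hp
        have h2 := (mem_filter.1 hp).2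
        rw [Sym2.eq_iff] at h2
        rcases h2 with ⟨h2, h3⟩ | ⟨h2, h3⟩
        · simp [← h2, ← h3]
        · simp [← h2, ← h3]
    have h2 : F.card ≤ cst E (8 * m) := by
      refine edges_le h (σ := lam / 2) (by positivity) c F ?_ ?_
      · intro e he
        obtain ⟨p, hp, rfl⟩ := mem_image.1 he
        simp only [Lg, P, mem_filter, mem_univ, true_and] at hp
        exact hp.1.2
      · intro e he
        obtain ⟨p, hp, rfl⟩ := mem_image.1 he
        simp only [Lg, P, mem_filter, mem_univ, true_and] at hp
        obtain ⟨⟨hp1, hp2⟩, hp3⟩ := hp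
        rw [mem_inBall] at hp1
        set d := dist (x p.1) (x p.2) with hd
        have hd0 : 0 < d := lt_of_lt_of_le hlam0 hp3
        set t : ℝ := lam / 2 / d with ht
        have ht0 : 0 ≤ t := by positivity
        have ht1 : t ≤ 1 / 2 := by
          rw [ht, div_le_iff₀ hd0]; linarith
        refine ⟨AffineMap.lineMap (x p.1) (x p.2) t, ?_, ?_, ?_⟩
        · rw [seg_mk, segment_eq_image_lineMap]
          exact ⟨t, ⟨ht0, by linarith⟩, rfl⟩
        · intro v hv
          rw [Sym2.mem_iff] at hv
          rcases hv with rfl | rfl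
          · rw [dist_lineMap_left, Real.norm_of_nonneg ht0, ← hd, ht, div_mul_cancel₀ _ hd0.ne']
          · rw [dist_lineMap_right, Real.norm_of_nonneg (by linarith), ← hd]
            have : t * d = lam / 2 := by rw [ht, div_mul_cancel₀ _ hd0.ne']
            nlinarith
        · have h3 : dist (AffineMap.lineMap (x p.1) (x p.2) t) (x p.1) = lam / 2 := by
            rw [dist_lineMap_left, Real.norm_of_nonneg ht0, ← hd, ht, div_mul_cancel₀ _ hd0.ne']
          have h4 := dist_triangle (AffineMap.lineMap (x p.1) (x p.2) t : E) (x p.1) c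
          have h5 : (8 * (m : ℝ)) * (lam / 2) = 2 * r := by
            have : (m : ℝ) * lam = r / 2 := hmlam
            nlinarith
          have h6 : lam ≤ r / 2 := by
            have : (1 : ℝ) ≤ m := by exact_mod_cast hm0
            nlinarith
          rw [h5]
          linarith
    omega
  -- conclusion
  have h7 : P.card ≤ 3 * (kD E * k) := by rw [hPcard]; exact Nat.mul_le_mul_left _ hcov
  have h8 : m * k ≤ 3 * (kD E * k) + m * (2 * cst E (8 * m)) :=
    hsum.trans (add_le_add h7 (Nat.mul_le_mul_left _ hLg))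
  have h9 : kB E = 2 * (2 * cst E (8 * m)) := by rw [kB, ← hm]; ring
  rw [h9]
  have h10 : 6 * (kD E * k) ≤ m * k := by
    rw [hm, kM, add_mul, mul_assoc]; omega
  have h11 : m * k ≤ m * (2 * (2 * cst E (8 * m))) := by nlinarith
  exact Nat.le_of_mul_le_mul_left h11 hm0

/-- **Ball lemma.** There are at most `kB E` vertices in a ball if the concentric ball of twice the
radius contains no terminals. -/
theorem ball_le (h : Good G x A) {c : E} {r : ℝ} (hr : 0 < r)
    (hA : ∀ a ∈ A, 2 * r ≤ dist (x a) c) : (inBall x c r).card ≤ kB E := by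
  classical
  let S : Set ℕ := {k | ∃ (c' : E) (r' : ℝ), 0 < r' ∧ (∀ a ∈ A, 2 * r' ≤ dist (x a) c') ∧
    (inBall x c' r').card = k}
  have hne : S.Nonempty := ⟨_, c, r, hr, hA, rfl⟩
  have hbdd : BddAbove S := by
    refine ⟨Fintype.card V, ?_⟩
    rintro k ⟨c', r', -, -, rfl⟩
    exact card_le_univ _
  obtain ⟨c', r', hr', hA', hk⟩ := Nat.sSup_mem hne hbdd
  have h1 : (inBall x c' r').card ≤ kB E := by
    refine ball_step h hr' hA' ?_
    intro c'' r'' h2 h3
    rw [hk]
    exact le_csSup hbdd ⟨c'', r'', h2, h3, rfl⟩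
  exact (le_csSup hbdd ⟨c, r, hr, hA, rfl⟩).trans (hk ▸ h1)

end Pool.Agent.E8helper35.Steiner
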