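import Pool.Agent.E8helper35.Steiner.Visit

/-!
# The code of a tree with separated edges

The code has linear size and determines the tree up to isomorphism over the terminals.
-/

set_option autoImplicit false

namespace Pool.Agent.E8helper35.Steiner

open Finset Metric Relation

variable {E : Type} [NormedAddCommGroup E] [NormedSpace ℝ E] [FiniteDimensional ℝ E]

/-- The items: a node and a slot. -/
abbrev Item (E : Type) [NormedAddCommGroup E] [NormedSpace ℝ E] [FiniteDimensional ℝ E] : Type :=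
  (E ⊕ Finset E) × Fin (kK E)

variable {V : Type} [Fintype V]

/-- The relation part of the code. -/
def RR (G : SimpleGraph V) (T : Finset E) (x : V → E)
    (slot : (E ⊕ Finset E) → Sym2 V → Fin (kK E)) : Set (Item E × Item E) :=
  {i | ∃ e ∈ G.edgeSet, ∃ p ∈ seg x e, ∃ q ∈ seg x e, Step T p q ∧
    i = ((node T p, slot (node T p) e), (node T q, slot (node T q) e))}

/-- The part of the code for the vertices which are not terminals. -/
def QQ (G : SimpleGraph V) (A : Set V) (T : Finset E) (x : V → E)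
    (slot : (E ⊕ Finset E) → Sym2 V → Fin (kK E)) : Set ((E ⊕ Finset E) × Set (Fin (kK E))) :=
  {i | ∃ s ∉ A, i = (node T (x s), slot (node T (x s)) '' G.incidenceSet s)}

/-- The part of the code for the terminals. -/
def TT (G : SimpleGraph V) (A : Set V) (x : V → E)
    (slot : (E ⊕ Finset E) → Sym2 V → Fin (kK E)) : Set (V × Fin (kK E)) :=
  {i | i.1 ∈ A ∧ ∃ e ∈ G.incidenceSet i.1, slot (Sum.inr {x i.1}) e = i.2}

/-- The class of an item. -/
def cls (R : Set (Item E × Item E)) (i : Item E) : Set (Item E) :=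
  {i' | EqvGen (fun a b => (a, b) ∈ R) i i'}

/-- The mark of an edge: the set of its items. -/
def mark (T : Finset E) (x : V → E) (slot : (E ⊕ Finset E) → Sym2 V → Fin (kK E))
    (e : Sym2 V) : Set (Item E) := {i | Vis T x i.1 e ∧ slot i.1 e = i.2}

/-- The key of a vertex. -/
def key (G : SimpleGraph V) (T : Finset E) (x : V → E)
    (slot : (E ⊕ Finset E) → Sym2 V → Fin (kK E)) (v : V) : Set (Set (Item E)) :=
  mark T x slot '' G.incidenceSet v

/-- The slots are different for different edges which visit the same node. -/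
def SlotOK (G : SimpleGraph V) (T : Finset E) (x : V → E)
    (slot : (E ⊕ Finset E) → Sym2 V → Fin (kK E)) : Prop :=
  ∀ ν, Set.InjOn (slot ν) {e | e ∈ G.edgeSet ∧ Vis T x ν e}

variable {G : SimpleGraph V} {x : V → E} {A : Set V} {T : Finset E}

instance : Nonempty (Fin (kK E)) := by
  refine ⟨⟨0, lt_of_lt_of_le ?_ (le_max_right _ _)⟩⟩
  rw [k3]
  omega

lemma exists_slot (h : Good G x A) (hT : T.Nonempty) (hTA : ∀ p, p ∈ T ↔ ∃ a ∈ A, x a = p) :
    ∃ slot, SlotOK G T x slot := by
  classical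
  have h1 : ∀ ν : E ⊕ Finset E, ∃ f : Sym2 V → Fin (kK E),
      Set.InjOn f {e | e ∈ G.edgeSet ∧ Vis T x ν e} := by
    intro ν
    let F : Finset (Sym2 V) := univ.filter fun e => e ∈ G.edgeSet ∧ Vis T x ν e
    have hF : F.card ≤ kK E := visits_le h hT hTA ν F fun e he => (mem_filter.1 he).2
    obtain ⟨f⟩ : Nonempty (F ↪ Fin (kK E)) :=
      Function.Embedding.nonempty_of_card_le (by simpa using hF)
    refine ⟨fun e => if he : e ∈ F then f ⟨e, he⟩ else Classical.arbitrary _, ?_⟩
    intro e he e' he' hee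
    have h2 : e ∈ F := mem_filter.2 ⟨mem_univ _, he⟩
    have h3 : e' ∈ F := mem_filter.2 ⟨mem_univ _, he'⟩
    simp only [dif_pos h2, dif_pos h3] at hee
    have := f.injective hee
    exact congrArg Subtype.val this
  choose slot hslot using h1
  exact ⟨slot, hslot⟩

variable {slot : (E ⊕ Finset E) → Sym2 V → Fin (kK E)}

lemma notMem_of_rr {p : E} (h : 0 < rr T p) : p ∉ T := by
  intro hp
  have := rr_le hp p
  rw [dist_self] at this
  linarith

lemma eq_of_mark (hs : SlotOK G T x slot) {e e' : Sym2 V} (he : e ∈ G.edgeSet)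
    (he' : e' ∈ G.edgeSet) {i : Item E} (h1 : i ∈ mark T x slot e) (h2 : i ∈ mark T x slot e') :
    e = e' :=
  hs i.1 ⟨he, h1.1⟩ ⟨he', h2.1⟩ (h1.2.trans h2.2.symm)

lemma cls_eq (h : Good G x A) (hT : T.Nonempty) (hTA : ∀ p, p ∈ T ↔ ∃ a ∈ A, x a = p)
    (hs : SlotOK G T x slot) {e : Sym2 V} (he : e ∈ G.edgeSet) {i : Item E}
    (hi : i ∈ mark T x slot e) : cls (RR G T x slot) i = mark T x slot e := by
  ext i'
  constructor
  · intro hi'
    have key : ∀ a b : Item E, EqvGen (fun a b => (a, b) ∈ RR G T x slot) a b →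
        (a ∈ mark T x slot e ↔ b ∈ mark T x slot e) := by
      intro a b hab
      induction hab with
      | rel a b hab =>
        obtain ⟨e', he', p, hp, q, hq, hpq, hab⟩ := hab
        obtain ⟨rfl, rfl⟩ := Prod.mk.inj hab
        have ha : (node T p, slot (node T p) e') ∈ mark T x slot e' :=
          ⟨⟨p, hp, hpq.1, rfl⟩, rfl⟩
        have hb : (node T q, slot (node T q) e') ∈ mark T x slot e' :=
          ⟨⟨q, hq, hpq.2.1, rfl⟩, rfl⟩
        constructor
        · intro h1
          have := eq_of_mark hs he he' h1 ha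
          rw [this]
          exact hb
        · intro h1
          have := eq_of_mark hs he he' h1 hb
          rw [this]
          exact ha
      | refl a => exact Iff.rfl
      | symm a b _ ih => exact ih.symm
      | trans a b c _ _ ih1 ih2 => exact ih1.trans ih2
    exact (key i i' hi').1 hi
  · rintro ⟨⟨q, hq1, hq2, hq3⟩, hq4⟩
    obtain ⟨⟨p, hp1, hp2, hp3⟩, hp4⟩ := hi
    have h1 := chain hT (seg_disjoint h hTA he hp1 hq1 (notMem_of_rr hp2) (notMem_of_rr hq2))
      (fun w => EqvGen (fun a b => (a, b) ∈ RR G T x slot) i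
        (node T w, slot (node T w) e)) (by
          have : i = (node T p, slot (node T p) e) := by
            ext1
            · exact hp3.symm
            · rw [hp3]; exact hp4.symm
          rw [← this]
          exact EqvGen.refl _) (by
        intro w hw w' hw' hst hrel
        refine EqvGen.trans _ _ _ hrel (EqvGen.rel _ _ ⟨e, he, w, ?_, w', ?_, hst, rfl⟩)
        · induction e using Sym2.ind with
          | _ u v => exact (convex_segment _ _).segment_subset hp1 hq1 hw
        · induction e using Sym2.ind with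
          | _ u v => exact (convex_segment _ _).segment_subset hp1 hq1 hw')
    have h2 : i' = (node T q, slot (node T q) e) := by
      ext1
      · exact hq3.symm
      · rw [hq3]; exact hq4.symm
    rw [h2]
    exact h1

lemma exists_mem_mark (h : Good G x A) (hT : T.Nonempty) (hTA : ∀ p, p ∈ T ↔ ∃ a ∈ A, x a = p)
    {e : Sym2 V} (he : e ∈ G.edgeSet) : (mark T x slot e).Nonempty := by
  induction e using Sym2.ind with
  | _ u v =>
    have hne : x u ≠ x v := fun hc => ((SimpleGraph.mem_edgeSet _).1 he).ne (h.inj hc)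
    have hd : 0 < dist (x u) (x v) := dist_pos.2 hne
    set p : E := AffineMap.lineMap (x u) (x v) (1 / 2 : ℝ) with hp
    have hps : p ∈ seg x s(u, v) := by
      rw [seg_mk, segment_eq_image_lineMap]
      exact ⟨1 / 2, ⟨by norm_num, by norm_num⟩, rfl⟩
    have hpT : p ∉ T := by
      intro hmem
      obtain ⟨a, ha, hap⟩ := (hTA p).1 hmem
      have h1 := terminal_on h he ha (hap ▸ hps)
      rw [Sym2.mem_iff] at h1
      rcases h1 with rfl | rfl
      · have : dist p (x a) = 0 := by rw [hap, dist_self]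
        rw [hp, dist_lineMap_left, Real.norm_of_nonneg (by norm_num)] at this
        linarith
      · have : dist p (x a) = 0 := by rw [hap, dist_self]
        rw [hp, dist_lineMap_right, Real.norm_of_nonneg (by norm_num)] at this
        linarith
    exact ⟨(node T p, slot (node T p) s(u, v)), ⟨p, hps, rr_pos hT hpT, rfl⟩, rfl⟩

lemma mark_inj (h : Good G x A) (hT : T.Nonempty) (hTA : ∀ p, p ∈ T ↔ ∃ a ∈ A, x a = p)
    (hs : SlotOK G T x slot) {e e' : Sym2 V} (he : e ∈ G.edgeSet) (he' : e' ∈ G.edgeSet)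
    (hee : mark T x slot e = mark T x slot e') : e = e' := by
  obtain ⟨i, hi⟩ := exists_mem_mark (slot := slot) h hT hTA he
  exact eq_of_mark hs he he' hi (hee ▸ hi)

lemma rr_pos_of (h : Good G x A) (hT : T.Nonempty) (hTA : ∀ p, p ∈ T ↔ ∃ a ∈ A, x a = p)
    {s : V} (hsA : s ∉ A) : 0 < rr T (x s) := by
  refine rr_pos hT fun hc => ?_
  obtain ⟨a, ha, hax⟩ := (hTA _).1 hc
  exact hsA (h.inj hax ▸ ha)

lemma key_steiner (h : Good G x A) (hT : T.Nonempty) (hTA : ∀ p, p ∈ T ↔ ∃ a ∈ A, x a = p)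
    (hs : SlotOK G T x slot) {s : V} (hsA : s ∉ A) :
    key G T x slot s = (fun j => cls (RR G T x slot) (node T (x s), j)) ''
      (slot (node T (x s)) '' G.incidenceSet s) := by
  rw [key, Set.image_image]
  refine Set.image_congr ?_
  intro e he
  refine (cls_eq h hT hTA hs he.1 ⟨⟨x s, mem_seg_of_mem he.2, rr_pos_of h hT hTA hsA, rfl⟩, rfl⟩).symm

/-- The edge at a terminal visits the node of the terminal. -/
lemma vis_terminal (h : Good G x A) (hTA : ∀ p, p ∈ T ↔ ∃ a ∈ A, x a = p)
    {a : V} (ha : a ∈ A) {e : Sym2 V} (he : e ∈ G.incidenceSet a) : Vis T x (Sum.inr {x a}) e := by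
  classical
  obtain ⟨he1, w, rfl⟩ := he
  have hne : x a ≠ x w := fun hc => ((SimpleGraph.mem_edgeSet _).1 he1).ne (h.inj hc)
  set L := dist (x a) (x w) with hL
  have hL0 : 0 < L := dist_pos.2 hne
  have haT : x a ∈ T := (hTA _).2 ⟨a, ha, rfl⟩
  obtain ⟨δ, hδ0, hδ⟩ : ∃ δ : ℝ, 0 < δ ∧ ∀ b ∈ T, b ≠ x a → δ ≤ dist b (x a) := by
    by_cases hex : (T.erase (x a)).Nonempty
    · obtain ⟨b, hb, hmin⟩ := (T.erase (x a)).exists_min_image (fun b => dist b (x a)) hex
      refine ⟨dist b (x a), dist_pos.2 (mem_erase.1 hb).1, ?_⟩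
      intro c hc hca
      exact hmin c (mem_erase.2 ⟨hca, hc⟩)
    · refine ⟨1, one_pos, fun b hb hba => ?_⟩
      exact absurd ⟨b, mem_erase.2 ⟨hba, hb⟩⟩ hex
  obtain ⟨t, ht0, ht1, ht2⟩ : ∃ t : ℝ, 0 < t ∧ t ≤ 1 ∧ 9 * (t * L) < δ := by
    refine ⟨min 1 (δ / (10 * L)), by positivity, min_le_left _ _, ?_⟩
    have h1 : min 1 (δ / (10 * L)) * L ≤ δ / (10 * L) * L :=
      mul_le_mul_of_nonneg_right (min_le_right _ _) hL0.le
    have h2 : δ / (10 * L) * L = δ / 10 := by field_simp
    linarith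
  set p : E := AffineMap.lineMap (x a) (x w) t with hp
  have hpa : dist p (x a) = t * L := by
    rw [hp, dist_lineMap_left, Real.norm_of_nonneg ht0.le]
  have hpos : 0 < t * L := by positivity
  have hfar : ∀ b ∈ T, b ≠ x a → 8 * (t * L) < dist b p := by
    intro b hb hba
    have h1 := hδ b hb hba
    have h2 := dist_triangle b p (x a)
    linarith
  have hrr : rr T p = t * L := by
    obtain ⟨b, hb, hb2⟩ := exists_rr ⟨_, haT⟩ p
    by_cases hba : b = x a
    · rw [← hb2, hba, dist_comm, hpa]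
    · have h1 := hfar b hb hba
      have h2 := rr_le haT p
      rw [dist_comm, hpa] at h2
      rw [hb2] at h1
      linarith
  have hnear : ∀ b, b ∈ near T p ↔ b = x a := by
    intro b
    rw [mem_near, hrr]
    constructor
    · rintro ⟨hb1, hb2⟩
      by_contra hba
      have := hfar b hb1 hba
      linarith
    · rintro rfl
      refine ⟨haT, ?_⟩
      rw [dist_comm, hpa]
      linarith
  refine ⟨p, ?_, by rw [hrr]; exact hpos, ?_⟩
  · rw [seg_mk, segment_eq_image_lineMap]
    exact ⟨t, ⟨ht0.le, ht1⟩, rfl⟩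
  · have hact : ¬ Active T p := by
      rintro ⟨-, b, hb, c, hc, hb2, hc2, hbc⟩
      rw [(hnear b).1 (mem_near.2 ⟨hb, hb2⟩), (hnear c).1 (mem_near.2 ⟨hc, hc2⟩), dist_self, hrr]
        at hbc
      linarith
    rw [node_inactive hact]
    congr 1
    ext b
    rw [hnear, mem_singleton]

lemma key_terminal (h : Good G x A) (hT : T.Nonempty) (hTA : ∀ p, p ∈ T ↔ ∃ a ∈ A, x a = p)
    (hs : SlotOK G T x slot) {a : V} (ha : a ∈ A) :
    key G T x slot a = (fun j => cls (RR G T x slot) (Sum.inr {x a}, j)) ''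
      {j | (a, j) ∈ TT G A x slot} := by
  have h1 : {j | (a, j) ∈ TT G A x slot} = slot (Sum.inr {x a}) '' G.incidenceSet a := by
    ext j
    simp only [TT, Set.mem_setOf_eq, Set.mem_image]
    constructor
    · rintro ⟨-, h2⟩
      exact h2
    · intro h2
      exact ⟨ha, h2⟩
  rw [h1, key, Set.image_image]
  refine Set.image_congr ?_
  intro e he
  exact (cls_eq h hT hTA hs he.1 ⟨vis_terminal h hTA ha he, rfl⟩).symm

lemma key_inj (h : Good G x A) (hT : T.Nonempty) (hTA : ∀ p, p ∈ T ↔ ∃ a ∈ A, x a = p)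
    (hs : SlotOK G T x slot) {s s' : V} (hsA : s ∉ A)
    (hk : key G T x slot s = key G T x slot s') : s = s' := by
  have h1 : ∀ e ∈ G.incidenceSet s, e ∈ G.incidenceSet s' := by
    intro e he
    have h2 : mark T x slot e ∈ key G T x slot s' := hk ▸ ⟨e, he, rfl⟩
    obtain ⟨e', he', h3⟩ := h2
    rwa [← mark_inj h hT hTA hs he'.1 he.1 h3]
  have h2 := h.deg s hsA
  obtain ⟨v, w, u, hvw, -, -, hset⟩ := Set.ncard_eq_three.1 h2
  have hv : G.Adj s v := by
    rw [← SimpleGraph.mem_neighborSet, hset]; simp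
  have hw : G.Adj s w := by
    rw [← SimpleGraph.mem_neighborSet, hset]; simp
  have h3 := (h1 s(s, v) ⟨hv, Sym2.mem_mk_left _ _⟩).2
  have h4 := (h1 s(s, w) ⟨hw, Sym2.mem_mk_left _ _⟩).2
  rw [Sym2.mem_iff] at h3 h4
  rcases h3 with h3 | h3
  · exact h3.symm
  · rcases h4 with h4 | h4
    · exact h4.symm
    · exact absurd (h3.symm.trans h4) hvw

lemma adj_iff (h : Good G x A) (hT : T.Nonempty) (hTA : ∀ p, p ∈ T ↔ ∃ a ∈ A, x a = p)
    (hs : SlotOK G T x slot) {u v : V} :
    G.Adj u v ↔ u ≠ v ∧ (key G T x slot u ∩ key G T x slot v).Nonempty := by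
  constructor
  · intro hadj
    exact ⟨hadj.ne, mark T x slot s(u, v), ⟨_, ⟨hadj, Sym2.mem_mk_left _ _⟩, rfl⟩,
      ⟨_, ⟨hadj, Sym2.mem_mk_right _ _⟩, rfl⟩⟩
  · rintro ⟨hne, m, ⟨e, he, rfl⟩, ⟨e', he', hee⟩⟩
    have h1 := mark_inj h hT hTA hs he'.1 he.1 hee
    subst h1
    have h2 := (Sym2.mem_and_mem_iff hne).1 ⟨he.2, he'.2⟩
    have h3 := he.1
    rw [h2] at h3
    exact h3

variable {G' : SimpleGraph V} {x' : V → E} {slot' : (E ⊕ Finset E) → Sym2 V → Fin (kK E)}

/-- **Decoding.** Equal codes imply isomorphism over the terminals. -/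
theorem decode (h : Good G x A) (h' : Good G' x' A) (hT : T.Nonempty)
    (hTA : ∀ p, p ∈ T ↔ ∃ a ∈ A, x a = p) (hxx : ∀ a ∈ A, x a = x' a)
    (hs : SlotOK G T x slot) (hs' : SlotOK G' T x' slot')
    (hR : RR G T x slot = RR G' T x' slot') (hQ : QQ G A T x slot = QQ G' A T x' slot')
    (hTT : TT G A x slot = TT G' A x' slot') :
    ∃ φ : G ≃g G', ∀ a ∈ A, φ a = a := by
  classical
  have hTA' : ∀ p, p ∈ T ↔ ∃ a ∈ A, x' a = p := by
    intro p
    rw [hTA p]
    constructor
    · rintro ⟨a, ha, h1⟩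
      exact ⟨a, ha, by rw [← hxx a ha, h1]⟩
    · rintro ⟨a, ha, h1⟩
      exact ⟨a, ha, by rw [hxx a ha, h1]⟩
  have hterm : ∀ a ∈ A, key G T x slot a = key G' T x' slot' a := by
    intro a ha
    rw [key_terminal h hT hTA hs ha, key_terminal h' hT hTA' hs' ha, hR, hTT, hxx a ha]
  have hst : ∀ s, s ∉ A → ∃ s', s' ∉ A ∧ key G T x slot s = key G' T x' slot' s' := by
    intro s hsA
    have h1 : (node T (x s), slot (node T (x s)) '' G.incidenceSet s) ∈ QQ G' A T x' slot' := by
      rw [← hQ]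
      exact ⟨s, hsA, rfl⟩
    obtain ⟨s', hsA', h2⟩ := h1
    obtain ⟨h3, h4⟩ := Prod.mk.inj h2
    refine ⟨s', hsA', ?_⟩
    rw [key_steiner h hT hTA hs hsA, key_steiner h' hT hTA' hs' hsA', hR, h4, h3]
  have hall : ∀ v, ∃ w, (w ∈ A ↔ v ∈ A) ∧ (v ∈ A → w = v) ∧
      key G T x slot v = key G' T x' slot' w := by
    intro v
    by_cases hv : v ∈ A
    · exact ⟨v, Iff.rfl, fun _ => rfl, hterm v hv⟩
    · obtain ⟨w, hw1, hw2⟩ := hst v hv
      exact ⟨w, ⟨fun hc => absurd hc hw1, fun hc => absurd hc hv⟩, fun hc => absurd hc hv, hw2⟩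
  choose f hf1 hf2 hf3 using hall
  have hinj : Function.Injective f := by
    intro u v huv
    by_cases hu : u ∈ A
    · have hv : v ∈ A := by rw [← hf1 v, ← huv, hf1 u]; exact hu
      rw [← hf2 u hu, huv, hf2 v hv]
    · refine key_inj h hT hTA hs hu ?_
      rw [hf3 u, hf3 v, huv]
  have hbij : Function.Bijective f := Finite.injective_iff_bijective.1 hinj
  refine ⟨⟨Equiv.ofBijective f hbij, ?_⟩, fun a ha => hf2 a ha⟩
  intro u v
  rw [adj_iff h hT hTA hs, adj_iff h' hT hTA' hs']
  simp only [Equiv.ofBijective_apply]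
  rw [hf3 u, hf3 v]
  exact and_congr_left fun _ => not_congr hinj.eq_iff

/-! ### Counting -/

/-- A finite set which contains the relation parts. -/
noncomputable def PK (T : Finset E) : Finset (Item E × Item E) := by
  classical
  exact (pairs T ×ˢ (univ : Finset (Fin (kK E) × Fin (kK E)))).image
    fun i => ((i.1.1, i.2.1), (i.1.2, i.2.2))

lemma PK_card (hT : T.Nonempty) : (PK T).card ≤ kP E * T.card * (kK E * kK E) := by
  classical
  rw [PK]
  refine card_image_le.trans ?_
  rw [card_product]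
  refine (Nat.mul_le_mul_right _ (pairs_card hT)).trans (le_of_eq ?_)
  simp

lemma RR_subset (hT : T.Nonempty) {i : Item E × Item E} (hi : i ∈ RR G T x slot) : i ∈ PK T := by
  classical
  obtain ⟨e, he, p, hp, q, hq, hst, rfl⟩ := hi
  rw [PK]
  exact mem_image.2 ⟨((node T p, node T q), (slot (node T p) e, slot (node T q) e)),
    mem_product.2 ⟨pair_mem hT hst, mem_univ _⟩, rfl⟩

/-- the constant for the size of the code -/
noncomputable def kC (E : Type) [NormedAddCommGroup E] [NormedSpace ℝ E] [FiniteDimensional ℝ E] :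
    ℕ := kP E * (kK E * kK E) + kN E * 2 ^ kK E + kK E

/-- **Counting.** Let `𝒢` be a set of graphs which have drawings with separated edges, with the
same terminal positions `a₀`. If no two of them are isomorphic over the terminals then there are at
most `2 ^ (kC E * |A|)` of them. -/
theorem card_le_of_good (A : Set V) (hA : A.Nonempty) (a₀ : V → E) (𝒢 : Finset (SimpleGraph V))
    (hgood : ∀ G ∈ 𝒢, ∃ x, Good G x A ∧ ∀ a ∈ A, x a = a₀ a)
    (hiso : ∀ G ∈ 𝒢, ∀ G' ∈ 𝒢, (∃ φ : G ≃g G', ∀ a ∈ A, φ a = a) → G = G') :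
    𝒢.card ≤ 2 ^ (kC E * A.ncard) := by
  classical
  let Af : Finset V := univ.filter (· ∈ A)
  have hAf : Af.card = A.ncard := by
    rw [← Set.ncard_coe_finset]
    congr 1
    ext v
    simp [Af]
  let T : Finset E := Af.image a₀
  have hT : T.Nonempty := by
    obtain ⟨a, ha⟩ := hA
    exact ⟨a₀ a, mem_image_of_mem _ (mem_filter.2 ⟨mem_univ _, ha⟩)⟩
  have hTA : ∀ p, p ∈ T ↔ ∃ a ∈ A, a₀ a = p := by
    intro p
    simp [T, Af]
  have hTcard : T.card ≤ A.ncard := card_image_le.trans hAf.le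
  choose! x hx hxa using hgood
  have hTAx : ∀ G ∈ 𝒢, ∀ p, p ∈ T ↔ ∃ a ∈ A, x G a = p := by
    intro G hG p
    rw [hTA]
    constructor
    · rintro ⟨a, ha, rfl⟩
      exact ⟨a, ha, hxa G hG a ha⟩
    · rintro ⟨a, ha, rfl⟩
      exact ⟨a, ha, (hxa G hG a ha).symm⟩
  have hslot : ∀ G ∈ 𝒢, ∃ slot, SlotOK G T (x G) slot := fun G hG =>
    exists_slot (hx G hG) hT (hTAx G hG)
  choose! sl hsl using hslot
  let code : SimpleGraph V → Finset (Item E × Item E) ×
      (Finset ((E ⊕ Finset E) × Set (Fin (kK E))) × Finset (V × Fin (kK E))) := fun G =>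
    ((PK T).filter (· ∈ RR G T (x G) (sl G)),
      (((nodes T) ×ˢ univ).filter (· ∈ QQ G A T (x G) (sl G)),
        (Af ×ˢ univ).filter (· ∈ TT G A (x G) (sl G))))
  let U₂ : Finset ((E ⊕ Finset E) × Set (Fin (kK E))) := (nodes T) ×ˢ univ
  let U₃ : Finset (V × Fin (kK E)) := Af ×ˢ univ
  let tgt : Finset (Finset (Item E × Item E) ×
      (Finset ((E ⊕ Finset E) × Set (Fin (kK E))) × Finset (V × Fin (kK E)))) :=
    (PK T).powerset ×ˢ (U₂.powerset ×ˢ U₃.powerset)
  have hmaps : Set.MapsTo code 𝒢 tgt := by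
    intro G hG
    refine mem_coe.2 (mem_product.2 ⟨?_, mem_product.2 ⟨?_, ?_⟩⟩)
    · exact mem_powerset.2 (filter_subset _ _)
    · exact mem_powerset.2 (filter_subset _ _)
    · exact mem_powerset.2 (filter_subset _ _)
  have hinj : Set.InjOn code 𝒢 := by
    intro G hG G' hG' hc
    simp only [code, Prod.mk.injEq] at hc
    obtain ⟨hc1, hc2, hc3⟩ := hc
    have hG := mem_coe.1 hG
    have hG' := mem_coe.1 hG'
    refine hiso G hG G' hG' (decode (hx G hG) (hx G' hG') hT (hTAx G hG)
      (fun a ha => by rw [hxa G hG a ha, hxa G' hG' a ha]) (hsl G hG) (hsl G' hG') ?_ ?_ ?_)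
    · ext i
      constructor
      · intro hi
        have : i ∈ (PK T).filter (· ∈ RR G T (x G) (sl G)) := mem_filter.2 ⟨RR_subset hT hi, hi⟩
        rw [hc1] at this
        exact (mem_filter.1 this).2
      · intro hi
        have : i ∈ (PK T).filter (· ∈ RR G' T (x G') (sl G')) := mem_filter.2 ⟨RR_subset hT hi, hi⟩
        rw [← hc1] at this
        exact (mem_filter.1 this).2
    · have hsub : ∀ G ∈ 𝒢, ∀ i ∈ QQ G A T (x G) (sl G), i ∈ (nodes T) ×ˢ
          (univ : Finset (Set (Fin (kK E)))) := by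
        intro G hG i hi
        obtain ⟨s, hsA, rfl⟩ := hi
        exact mem_product.2 ⟨node_mem hT (rr_pos_of (hx G hG) hT (hTAx G hG) hsA), mem_univ _⟩
      ext i
      constructor
      · intro hi
        have := mem_filter.2 ⟨hsub G hG i hi, hi⟩
        rw [hc2] at this
        exact (mem_filter.1 this).2
      · intro hi
        have := mem_filter.2 ⟨hsub G' hG' i hi, hi⟩
        rw [← hc2] at this
        exact (mem_filter.1 this).2
    · have hsub : ∀ G : SimpleGraph V, ∀ i ∈ TT G A (x G) (sl G), i ∈ Af ×ˢ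
          (univ : Finset (Fin (kK E))) := by
        intro G i hi
        exact mem_product.2 ⟨mem_filter.2 ⟨mem_univ _, hi.1⟩, mem_univ _⟩
      ext i
      constructor
      · intro hi
        have := mem_filter.2 ⟨hsub G i hi, hi⟩
        rw [hc3] at this
        exact (mem_filter.1 this).2
      · intro hi
        have := mem_filter.2 ⟨hsub G' i hi, hi⟩
        rw [← hc3] at this
        exact (mem_filter.1 this).2
  have h1 := card_le_card_of_injOn code hmaps hinj
  simp only [tgt] at h1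
  rw [card_product, card_product, card_powerset, card_powerset, card_powerset, ← pow_add,
    ← pow_add] at h1
  refine h1.trans (Nat.pow_le_pow_right (by norm_num) ?_)
  simp only [U₂, U₃]
  rw [card_product, card_product, hAf, Finset.card_univ, Finset.card_univ, Fintype.card_set,
    Fintype.card_fin]
  have h2 := PK_card hT
  have h3 := nodes_card hT
  have h4 : kP E * T.card * (kK E * kK E) ≤ kP E * A.ncard * (kK E * kK E) :=
    Nat.mul_le_mul_right _ (Nat.mul_le_mul_left _ hTcard)
  have h5 : (nodes T).card * 2 ^ kK E ≤ kN E * A.ncard * 2 ^ kK E :=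
    Nat.mul_le_mul_right _ (h3.trans (Nat.mul_le_mul_left _ hTcard))
  calc (PK T).card + ((nodes T).card * 2 ^ kK E + A.ncard * kK E)
      ≤ kP E * A.ncard * (kK E * kK E) + (kN E * A.ncard * 2 ^ kK E + A.ncard * kK E) := by
        omega
    _ = kC E * A.ncard := by rw [kC]; ring

end Pool.Agent.E8helper35.Steiner
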