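import Pool.Agent.E8helper35.Steiner.Ball

/-!
# Minimal trees have separated edges

If a tree of segments has minimal one-dimensional Hausdorff measure among the compact connected
sets which contain the terminals, then a point of an edge is at least as far from any other edge as
from the nearer endpoint of its edge.
-/

set_option autoImplicit false

namespace Pool.Agent.E8helper35.Steiner

open Finset Metric MeasureTheory MeasureTheory.Measure

variable {E : Type} [NormedAddCommGroup E] [NormedSpace ℝ E]

lemma isCompact_segment' (p q : E) : IsCompact (segment ℝ p q) := by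
  rw [segment_eq_image_lineMap]
  exact isCompact_Icc.image AffineMap.lineMap_continuous

lemma isCompact_seg {V : Type} (x : V → E) (e : Sym2 V) : IsCompact (seg x e) := by
  induction e using Sym2.ind with
  | _ u v => exact isCompact_segment' _ _

lemma joined_segment {p q p' q' : E} {S : Set E} (h : segment ℝ p q ⊆ S)
    (hp : p' ∈ segment ℝ p q) (hq : q' ∈ segment ℝ p q) : JoinedIn S p' q' :=
  (((convex_segment p q).isPathConnected ⟨p', hp⟩).joinedIn p' hp q' hq).mono h

lemma joined_seg {V : Type} {x : V → E} {e : Sym2 V} {p q : E} {S : Set E} (h : seg x e ⊆ S)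
    (hp : p ∈ seg x e) (hq : q ∈ seg x e) : JoinedIn S p q := by
  induction e using Sym2.ind with
  | _ u v => exact joined_segment h hp hq

lemma mem_seg_left {V : Type} {x : V → E} {u v : V} : x u ∈ seg x s(u, v) :=
  left_mem_segment ℝ _ _

lemma mem_seg_right {V : Type} {x : V → E} {u v : V} : x v ∈ seg x s(u, v) :=
  right_mem_segment ℝ _ _

/-- Reachable vertices are joined. -/
lemma joined_of_reachable {V : Type} {H : SimpleGraph V} {x : V → E} {S : Set E}
    (hS : ∀ e ∈ H.edgeSet, seg x e ⊆ S) (hx : ∀ v, x v ∈ S) {u v : V} (h : H.Reachable u v) :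
    JoinedIn S (x u) (x v) := by
  obtain ⟨p⟩ := h
  induction p with
  | nil => exact JoinedIn.refl (hx _)
  | cons hadj _ ih => exact (joined_seg (hS _ hadj) mem_seg_left mem_seg_right).trans ih

/-- In a connected graph every vertex is reachable from an endpoint of a deleted edge. -/
lemma reachable_or {V : Type} {G : SimpleGraph V} (hG : G.Connected) {u v : V} (w : V) :
    (G.deleteEdges {s(u, v)}).Reachable u w ∨ (G.deleteEdges {s(u, v)}).Reachable v w := by
  suffices hsuf : ∀ (a c : V), G.Walk a c → c = u →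
      (G.deleteEdges {s(u, v)}).Reachable u a ∨ (G.deleteEdges {s(u, v)}).Reachable v a by
    obtain ⟨p⟩ := hG.preconnected w u
    exact hsuf w u p rfl
  intro a c p hc
  induction p with
  | nil =>
    subst hc
    exact Or.inl (SimpleGraph.Reachable.refl _)
  | @cons a b _ hadj _ ih =>
    have ih := ih hc
    by_cases hab : s(a, b) = s(u, v)
    · rw [Sym2.eq_iff] at hab
      rcases hab with ⟨rfl, rfl⟩ | ⟨rfl, rfl⟩
      · exact Or.inl (SimpleGraph.Reachable.refl _)
      · exact Or.inr (SimpleGraph.Reachable.refl _)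
    · have h1 : (G.deleteEdges {s(u, v)}).Adj b a := by
        rw [SimpleGraph.deleteEdges_adj]
        exact ⟨hadj.symm, fun hc => hab (by rw [Sym2.eq_swap]; exact hc)⟩
      rcases ih with ih | ih
      · exact Or.inl (ih.trans h1.reachable)
      · exact Or.inr (ih.trans h1.reachable)

variable [MeasurableSpace E] [BorelSpace E]

lemma hausdorff_seg {V : Type} (x : V → E) (u v : V) : μH[1] (seg x s(u, v)) = edist (x u) (x v) := by
  rw [seg_mk, hausdorffMeasure_segment]

lemma hausdorff_seg_ne_top {V : Type} (x : V → E) (e : Sym2 V) : μH[1] (seg x e) ≠ ⊤ := by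
  induction e using Sym2.ind with
  | _ u v =>
    rw [hausdorff_seg]
    exact edist_ne_top _ _

variable {V : Type} [Fintype V] {G : SimpleGraph V} {x : V → E}

/-- The basic exchange. -/
lemma exchange_one (hG : G.Connected) {S : Set E}
    (hS : S = ⋃ e ∈ G.edgeSet, seg x e)
    (hdisj : ∀ e ∈ G.edgeSet, ∀ e' ∈ G.edgeSet, e ≠ e' → (seg x e ∩ seg x e').Finite)
    (hmin : ∀ S', IsCompact S' → IsConnected S' → Set.range x ⊆ S' → μH[1] S ≤ μH[1] S')
    {u v w z : V} (huv : G.Adj u v) (hwz : G.Adj w z) (hne : s(w, z) ≠ s(u, v)) {q q' : E}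
    (hq : q ∈ segment ℝ (x u) (x v)) (hq' : q' ∈ segment ℝ (x w) (x z))
    (hreach : (G.deleteEdges {s(u, v)}).Reachable u w) : dist (x u) q ≤ dist q q' := by
  classical
  have : NullSingletonClass (μH[1] : Measure E) := nullSingletonClass_hausdorff E one_pos
  let F : Finset (Sym2 V) := univ.filter fun e => e ∈ G.edgeSet
  let F' : Finset (Sym2 V) := F.erase s(u, v)
  have hF : ∀ e, e ∈ F ↔ e ∈ G.edgeSet := fun e => by simp [F]
  have huvF : s(u, v) ∈ F := (hF _).2 huv
  set S' : Set E := Set.range x ∪ ((⋃ e ∈ F', seg x e) ∪ (segment ℝ (x v) q ∪ segment ℝ q q'))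
    with hS'
  have hrange : Set.range x ⊆ S' := Set.subset_union_left
  have hF'S : ∀ e ∈ F', seg x e ⊆ S' := by
    intro e he
    refine Set.Subset.trans ?_ Set.subset_union_right
    refine Set.Subset.trans ?_ Set.subset_union_left
    exact Set.subset_biUnion_of_mem (u := fun e => seg x e) (mem_coe.2 he)
  have hvq : segment ℝ (x v) q ⊆ S' :=
    Set.Subset.trans Set.subset_union_left
      (Set.Subset.trans Set.subset_union_right Set.subset_union_right)
  have hqq : segment ℝ q q' ⊆ S' :=
    Set.Subset.trans Set.subset_union_right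
      (Set.Subset.trans Set.subset_union_right Set.subset_union_right)
  have hcomp : IsCompact S' := by
    refine (Set.finite_range x).isCompact.union (IsCompact.union ?_ ?_)
    · exact F'.finite_toSet.isCompact_biUnion fun e _ => isCompact_seg x e
    · exact (isCompact_segment' _ _).union (isCompact_segment' _ _)
  have hdel : ∀ e ∈ (G.deleteEdges {s(u, v)}).edgeSet, e ∈ F' := by
    intro e he
    rw [SimpleGraph.edgeSet_deleteEdges, Set.mem_sdiff, Set.mem_singleton_iff] at he
    exact mem_erase.2 ⟨he.2, (hF e).2 he.1⟩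
  have hjoin : ∀ {a b : V}, (G.deleteEdges {s(u, v)}).Reachable a b → JoinedIn S' (x a) (x b) :=
    fun hab => joined_of_reachable (fun e he => hF'S e (hdel e he))
      (fun v => hrange ⟨v, rfl⟩) hab
  have hwzF' : s(w, z) ∈ F' := mem_erase.2 ⟨hne, (hF _).2 hwz⟩
  have hwq' : JoinedIn S' (x w) q' := joined_seg (hF'S _ hwzF') mem_seg_left hq'
  have hqq' : JoinedIn S' q q' :=
    joined_segment hqq (left_mem_segment ℝ _ _) (right_mem_segment ℝ _ _)
  have hall : ∀ a, JoinedIn S' (x a) q' := by
    intro a
    rcases reachable_or hG (u := u) (v := v) a with ha | ha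
    · exact ((hjoin ha).symm.trans (hjoin hreach)).trans hwq'
    · exact ((hjoin ha).symm.trans (joined_segment hvq (left_mem_segment ℝ _ _)
        (right_mem_segment ℝ _ _))).trans hqq'
  have hconn : IsConnected S' := by
    refine IsPathConnected.isConnected ⟨q', hqq (right_mem_segment ℝ _ _), ?_⟩
    intro y hy
    rw [hS'] at hy
    rcases hy with ⟨a, rfl⟩ | hy | hy | hy
    · exact (hall a).symm
    · obtain ⟨e, he, hye⟩ := Set.mem_iUnion₂.1 hy
      obtain ⟨a, ha⟩ : ∃ a, x a ∈ seg x e := by
        induction e using Sym2.ind with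
        | _ a b => exact ⟨a, mem_seg_left⟩
      exact (hall a).symm.trans (joined_seg (hF'S e he) ha hye)
    · exact hqq'.symm.trans (joined_segment hvq (right_mem_segment ℝ _ _) hy)
    · exact joined_segment hqq (right_mem_segment ℝ _ _) hy
  have h1 := hmin S' hcomp hconn hrange
  -- the measure of `S`
  have hSF : S = ⋃ e ∈ F, seg x e := by
    rw [hS]
    ext y
    simp [F]
  have h2 : μH[1] S = ∑ e ∈ F, μH[1] (seg x e) := by
    rw [hSF]
    refine measure_biUnion_finset₀ ?_ fun e _ => (isCompact_seg x e).isClosed.measurableSet.nullMeasurableSet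
    intro e he e' he' hee
    exact (hdisj e ((hF e).1 he) e' ((hF e').1 he') hee).measure_zero _
  have h3 : μH[1] S = ∑ e ∈ F', μH[1] (seg x e) + edist (x u) (x v) := by
    rw [h2, ← sum_erase_add _ _ huvF, hausdorff_seg]
  have h4 : μH[1] S' ≤ ∑ e ∈ F', μH[1] (seg x e) + (edist (x v) q + edist q q') := by
    rw [hS']
    refine (measure_union_le _ _).trans ?_
    rw [(Set.finite_range x).measure_zero, zero_add]
    refine (measure_union_le _ _).trans (add_le_add (measure_biUnion_finset_le _ _) ?_)
    refine (measure_union_le _ _).trans ?_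
    rw [hausdorffMeasure_segment, hausdorffMeasure_segment]
  have h5 : ∑ e ∈ F', μH[1] (seg x e) ≠ ⊤ :=
    ENNReal.sum_ne_top.2 fun e _ => hausdorff_seg_ne_top x e
  have h6 : edist (x u) (x v) ≤ edist (x v) q + edist q q' := by
    rw [h3] at h1
    exact (ENNReal.add_le_add_iff_left h5).1 (h1.trans h4)
  rw [edist_dist, edist_dist, edist_dist, ← ENNReal.ofReal_add dist_nonneg dist_nonneg,
    ENNReal.ofReal_le_ofReal_iff (by positivity)] at h6
  have h7 := dist_add_dist_of_mem_segment hq
  rw [dist_comm q (x v)] at h7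
  linarith

/-- **Exchange.** -/
theorem sep_of_min (hG : G.Connected) {S : Set E}
    (hS : S = ⋃ e ∈ G.edgeSet, seg x e)
    (hdisj : ∀ e ∈ G.edgeSet, ∀ e' ∈ G.edgeSet, e ≠ e' → (seg x e ∩ seg x e').Finite)
    (hmin : ∀ S', IsCompact S' → IsConnected S' → Set.range x ⊆ S' → μH[1] S ≤ μH[1] S') :
    ∀ u v, G.Adj u v → ∀ e ∈ G.edgeSet, e ≠ s(u, v) → ∀ q ∈ segment ℝ (x u) (x v),
      ∀ q' ∈ seg x e, min (dist q (x u)) (dist q (x v)) ≤ dist q q' := by
  intro u v huv e he hne q hq q' hq'
  induction e using Sym2.ind with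
  | _ w z =>
    rcases reachable_or hG (u := u) (v := v) w with h | h
    · refine (min_le_left _ _).trans ?_
      rw [dist_comm q (x u)]
      exact exchange_one hG hS hdisj hmin huv he hne hq hq' h
    · refine (min_le_right _ _).trans ?_
      rw [dist_comm q (x v)]
      refine exchange_one hG hS hdisj hmin huv.symm he ?_ (by rwa [segment_symm]) hq' ?_
      · rwa [Sym2.eq_swap (a := v)]
      · rwa [Sym2.eq_swap (a := v)]

end Pool.Agent.E8helper35.Steiner
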