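import Mathlib

/-!
# Boundary of a set of branching vertices of a forest
-/

set_option autoImplicit false

namespace Pool.Agent.E8helper35.Steiner

open SimpleGraph Finset

variable {V : Type} [Fintype V] [DecidableEq V]

/-- An acyclic graph has fewer edges than vertices. -/
lemma acyclic_edges_lt {W : Type} [Fintype W] [Nonempty W] {G : SimpleGraph W}
    [DecidableRel G.Adj] (hG : G.IsAcyclic) : G.edgeFinset.card + 1 ≤ Fintype.card W := by
  classical
  obtain ⟨T, hGT, -, hT⟩ :=
    (connected_top (V := W)).exists_isTree_le_of_le_of_isAcyclic (le_top (a := G)) hG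
  rw [← hT.card_edgeFinset]
  gcongr

/-- In a forest, a set `W` of vertices of degree at least `3` has at least `|W|` neighbours
outside, counted with multiplicity. -/
theorem boundary_ge (G : SimpleGraph V) [DecidableRel G.Adj] (hG : G.IsAcyclic) (W : Finset V)
    (hdeg : ∀ v ∈ W, G.degree v = 3) :
    W.card ≤ ∑ v ∈ W, (G.neighborFinset v \ W).card := by
  rcases W.eq_empty_or_nonempty with rfl | hne
  · simp
  let H : SimpleGraph W := G.comap (fun x : W => (x : V))
  have : DecidableRel H.Adj := Classical.decRel _
  have : Nonempty W := hne.to_subtype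
  have hH : H.IsAcyclic := hG.comap ⟨fun x : W => (x : V), fun {a b} h => h⟩ Subtype.val_injective
  have h1 := acyclic_edges_lt hH
  have h2 := H.sum_degrees_eq_twice_card_edges
  have h3 : ∀ v : W, H.degree v = (G.neighborFinset (v : V) ∩ W).card := by
    intro v
    rw [← card_neighborFinset_eq_degree, ← Finset.card_map ⟨Subtype.val, Subtype.val_injective⟩]
    congr 1
    ext w
    simp only [mem_map, mem_neighborFinset, Function.Embedding.coeFn_mk, Subtype.exists,
      mem_inter, exists_and_right, exists_eq_right]
    constructor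
    · rintro ⟨hw, h⟩
      exact ⟨h, hw⟩
    · rintro ⟨h, hw⟩
      exact ⟨hw, h⟩
  have h4 : ∑ v : W, H.degree v = ∑ v ∈ W, (G.neighborFinset v ∩ W).card := by
    rw [← Finset.sum_coe_sort W]
    exact Finset.sum_congr rfl fun v _ => h3 v
  have h5 : ∀ v ∈ W, (G.neighborFinset v ∩ W).card + (G.neighborFinset v \ W).card = 3 := by
    intro v hv
    rw [Finset.card_inter_add_card_sdiff, card_neighborFinset_eq_degree, hdeg v hv]
  have h6 := Finset.sum_congr rfl h5
  rw [Finset.sum_add_distrib, Finset.sum_const, smul_eq_mul] at h6
  rw [Fintype.card_coe] at h1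
  omega

end Pool.Agent.E8helper35.Steiner
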