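import Pool.Agent.E8helper35.Steiner.Scale

/-!
# The nodes of a finite set

Every point `p ∉ T` gets a node: a point of a net of the active points, or the set of the points of
`T` near `p`. The number of nodes and the number of pairs of nodes of nearby points are linear in
`|T|`.
-/

set_option autoImplicit false

namespace Pool.Agent.E8helper35.Steiner

open Finset Metric

variable {E : Type} [NormedAddCommGroup E]

/-- `p` and `q` are near to each other, compared with the distances to `T`. -/
def Step (T : Finset E) (p q : E) : Prop :=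
  0 < rr T p ∧ 0 < rr T q ∧ dist p q ≤ rr T p / 16 ∧ dist p q ≤ rr T q / 16

lemma Step.symm {T : Finset E} {p q : E} (h : Step T p q) : Step T q p :=
  ⟨h.2.1, h.1, by rw [dist_comm]; exact h.2.2.2, by rw [dist_comm]; exact h.2.2.1⟩

lemma not_sep {T : Finset E} {p z : E} (h : ¬ Sep T p z) :
    dist p z ≤ rr T z / 15 ∧ dist p z ≤ rr T p / 15 := by
  have h1 := rr_lip T p z
  have h2 := rr_lip T z p
  rw [dist_comm z p] at h2
  rw [Sep, not_and_or, not_lt, not_lt] at h
  rcases h with h | h
  · constructor <;> linarith
  · constructor <;> linarith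

variable [NormedSpace ℝ E]

lemma chain {T : Finset E} (hT : T.Nonempty) {p q : E} (hseg : ∀ w ∈ segment ℝ p q, w ∉ T)
    (P : E → Prop) (h0 : P p)
    (hstep : ∀ w ∈ segment ℝ p q, ∀ w' ∈ segment ℝ p q, Step T w w' → P w → P w') : P q := by
  have hcont : Continuous (rr T) := continuous_infDist_pt _
  have hcomp : IsCompact (segment ℝ p q) := by
    rw [segment_eq_image_lineMap]
    exact isCompact_Icc.image AffineMap.lineMap_continuous
  obtain ⟨w₀, hw₀, hmin⟩ := hcomp.exists_isMinOn ⟨p, left_mem_segment ℝ p q⟩ hcont.continuousOn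
  have hpos : 0 < rr T w₀ := rr_pos hT (hseg w₀ hw₀)
  set ρ := rr T w₀ with hρ
  obtain ⟨n, hn⟩ := exists_nat_gt (16 * dist p q / ρ)
  have hn0 : (0 : ℝ) < n := lt_of_le_of_lt (by positivity) hn
  have hd : dist p q / n ≤ ρ / 16 := by
    rw [div_le_div_iff₀ hn0 (by norm_num)]
    rw [div_lt_iff₀ hpos] at hn
    linarith
  let f : ℕ → E := fun i => AffineMap.lineMap p q ((i : ℝ) / n)
  have hf : ∀ i ≤ n, f i ∈ segment ℝ p q := by
    intro i hi
    rw [segment_eq_image_lineMap]
    refine ⟨(i : ℝ) / n, ⟨by positivity, ?_⟩, rfl⟩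
    rw [div_le_one hn0]
    exact_mod_cast hi
  have hdist : ∀ i, dist (f i) (f (i + 1)) = dist p q / n := by
    intro i
    simp only [f]
    rw [dist_lineMap_lineMap, Real.dist_eq]
    have : (i : ℝ) / n - ((i + 1 : ℕ) : ℝ) / n = - (1 / n) := by
      push_cast
      field_simp
      ring
    rw [this, abs_neg, abs_of_pos (by positivity)]
    ring
  have key : ∀ i ≤ n, P (f i) := by
    intro i
    induction i with
    | zero =>
      intro _
      simpa [f] using h0
    | succ i ih =>
      intro hi
      have h1 := hf i (by omega)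
      have h2 := hf (i + 1) hi
      refine hstep _ h1 _ h2 ⟨lt_of_lt_of_le hpos (hmin h1), lt_of_lt_of_le hpos (hmin h2), ?_, ?_⟩
        (ih (by omega))
      · rw [hdist]
        have : ρ ≤ rr T (f i) := hmin h1
        linarith
      · rw [hdist]
        have : ρ ≤ rr T (f (i + 1)) := hmin h2
        linarith
  have h3 := key n le_rfl
  simp only [f] at h3
  rwa [div_self hn0.ne', AffineMap.lineMap_apply_one] at h3

variable [FiniteDimensional ℝ E]

open Classical in
/-- The net of active points. -/
noncomputable def net (T : Finset E) : Finset E :=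
  if h : T.Nonempty then (exists_net h).choose else ∅

lemma net_card {T : Finset E} (hT : T.Nonempty) : (net T).card ≤ cst E 14688 * T.card := by
  rw [net, dif_pos hT]; exact (exists_net hT).choose_spec.1

lemma net_active {T : Finset E} (hT : T.Nonempty) {z : E} (hz : z ∈ net T) : Active T z := by
  rw [net, dif_pos hT] at hz; exact (exists_net hT).choose_spec.2.1 z hz

lemma net_sep {T : Finset E} (hT : T.Nonempty) {z z' : E} (hz : z ∈ net T) (hz' : z' ∈ net T)
    (hne : z ≠ z') : Sep T z z' := by
  rw [net, dif_pos hT] at hz hz'; exact (exists_net hT).choose_spec.2.2.1 z hz z' hz' hne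

lemma net_cover {T : Finset E} (hT : T.Nonempty) {p : E} (hp : Active T p) :
    ∃ z ∈ net T, ¬ Sep T p z := by
  rw [net, dif_pos hT]; exact (exists_net hT).choose_spec.2.2.2 p hp

open Classical in
/-- A point of the net near an active point. -/
noncomputable def rep (T : Finset E) (p : E) : E :=
  if h : ∃ z ∈ net T, ¬ Sep T p z then h.choose else p

lemma rep_mem {T : Finset E} (hT : T.Nonempty) {p : E} (hp : Active T p) : rep T p ∈ net T := by
  rw [rep, dif_pos (net_cover hT hp)]; exact (net_cover hT hp).choose_spec.1

lemma rep_sep {T : Finset E} (hT : T.Nonempty) {p : E} (hp : Active T p) :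
    ¬ Sep T p (rep T p) := by
  rw [rep, dif_pos (net_cover hT hp)]; exact (net_cover hT hp).choose_spec.2

open Classical in
/-- The node of a point. -/
noncomputable def node (T : Finset E) (p : E) : E ⊕ Finset E :=
  if Active T p then Sum.inl (rep T p) else Sum.inr (near T p)

lemma node_active {T : Finset E} {p : E} (h : Active T p) : node T p = Sum.inl (rep T p) :=
  if_pos h

lemma node_inactive {T : Finset E} {p : E} (h : ¬ Active T p) : node T p = Sum.inr (near T p) :=
  if_neg h

open Classical in
/-- The set of near points for inactive points near `z`. -/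
noncomputable def cl (T : Finset E) (z : E) : Finset E :=
  if h : ∃ q, 0 < rr T q ∧ ¬ Active T q ∧ dist q z ≤ rr T z / 6 then near T h.choose else ∅

lemma near_eq_cl {T : Finset E} (hT : T.Nonempty) {q z : E} (h0 : 0 < rr T q)
    (h : ¬ Active T q) (hqz : dist q z ≤ rr T z / 6) : near T q = cl T z := by
  have hex : ∃ q, 0 < rr T q ∧ ¬ Active T q ∧ dist q z ≤ rr T z / 6 := ⟨q, h0, h, hqz⟩
  rw [cl, dif_pos hex]
  obtain ⟨h1, h2, h3⟩ := hex.choose_spec
  set q' := hex.choose
  have h4 := dist_triangle_right q q' z
  have h5 := rr_lip T z q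
  have h6 := rr_lip T z q'
  rw [dist_comm z q] at h5
  rw [dist_comm z q'] at h6
  exact near_eq hT h0 h1 h h2 (by linarith) (by linarith)

lemma near_of_step {T : Finset E} (hT : T.Nonempty) {p q : E} (hs : Step T p q)
    (hp : Active T p) (hq : ¬ Active T q) : near T q = cl T (rep T p) := by
  refine near_eq_cl hT hs.2.1 hq ?_
  have h1 := not_sep (rep_sep hT hp)
  have h2 := dist_triangle_left q (rep T p) p
  have h3 := hs.2.2.1
  have h4 := rr_lip T p (rep T p)
  linarith [h1.1, rr_nonneg T (rep T p)]

lemma near_cases {T : Finset E} (hT : T.Nonempty) {p : E} (h0 : 0 < rr T p) (h : ¬ Active T p) :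
    (∃ a ∈ T, near T p = {a}) ∨ ∃ z ∈ net T, near T p = cl T z := by
  classical
  obtain ⟨c, hc⟩ := near_nonempty hT p
  by_cases hsing : near T p = {c}
  · exact Or.inl ⟨c, (mem_near.1 hc).1, hsing⟩
  right
  obtain ⟨⟨a, b⟩, hab, hmax⟩ := ((near T p) ×ˢ (near T p)).exists_max_image
    (fun x => dist x.1 x.2) ⟨(c, c), mem_product.2 ⟨hc, hc⟩⟩
  obtain ⟨ha, hb⟩ := mem_product.1 hab
  simp only at ha hb
  set D := dist a b with hD
  have hmax' : ∀ x ∈ near T p, ∀ y ∈ near T p, dist x y ≤ D := fun x hx y hy =>
    hmax (x, y) (mem_product.2 ⟨hx, hy⟩)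
  have hD0 : 0 < D := by
    by_contra hD0
    push Not at hD0
    apply hsing
    rw [eq_singleton_iff_unique_mem]
    refine ⟨hc, fun x hx => ?_⟩
    have := hmax' x hx c hc
    exact dist_le_zero.1 (this.trans hD0)
  have hDr : D < rr T p / 2 := near_dist h0 h ha hb
  set R := dist p a with hR
  have hR1 : R < 3 / 2 * rr T p := by rw [hR, dist_comm]; exact near_le' hT h0 h ha
  have hR2 : rr T p ≤ R := by rw [hR, dist_comm]; exact rr_le (mem_near.1 ha).1 p
  have hR0 : 0 < R := lt_of_lt_of_le h0 hR2
  -- the points of the segment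
  let y : E := AffineMap.lineMap p a (1 - 2 * D / R)
  have hfrac : 2 * D / R < 1 := by rw [div_lt_one hR0]; linarith
  have hfrac0 : 0 < 2 * D / R := by positivity
  have hya : dist y a = 2 * D := by
    simp only [y]
    rw [dist_lineMap_right, ← hR, Real.norm_of_nonneg (by linarith)]
    field_simp
    ring
  have hw : ∀ w ∈ segment ℝ p y, 2 * D ≤ dist w a ∧ dist p w ≤ R := by
    intro w hw
    have hpy : dist p y = R - 2 * D := by
      simp only [y]
      rw [dist_left_lineMap, ← hR, Real.norm_of_nonneg (by linarith)]
      field_simp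
    have h1 : dist p w ≤ dist p y := by
      have := (convex_closedBall p (dist p y)).segment_subset (mem_closedBall_self dist_nonneg)
        (mem_closedBall.2 (by rw [dist_comm])) hw
      rw [dist_comm]
      exact mem_closedBall.1 this
    have h2 := dist_triangle p w a
    constructor <;> linarith
  have hfarw : ∀ w ∈ segment ℝ p y, ∀ c' ∈ T, D ≤ dist c' w := by
    intro w hw1 c' hc'
    obtain ⟨h1, h2⟩ := hw w hw1
    by_cases hcn : c' ∈ near T p
    · have h3 := hmax' a ha c' hcn
      have h4 := dist_triangle_right w a c'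
      rw [dist_comm w c'] at h4
      linarith
    · have h3 : 8 * rr T p < dist c' p := by
        by_contra h4
        push Not at h4
        exact hcn (mem_near.2 ⟨hc', h4⟩)
      have h4 := dist_triangle c' w p
      rw [dist_comm w p] at h4
      linarith
  have hyT : rr T y ≤ 2 * D := by
    rw [← hya, dist_comm]
    exact rr_le (mem_near.1 ha).1 y
  have hyD : D ≤ rr T y := by
    obtain ⟨c', hc', h1⟩ := exists_rr hT y
    rw [← h1]
    exact hfarw y (right_mem_segment ℝ p y) c' hc'
  have hyact : Active T y := by
    refine ⟨lt_of_lt_of_le hD0 hyD, a, (mem_near.1 ha).1, b, (mem_near.1 hb).1, ?_, ?_, ?_⟩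
    · rw [dist_comm, hya]; linarith
    · have := dist_triangle_left b y a
      rw [dist_comm a y, hya] at this
      linarith
    · linarith
  have hfin := chain hT (p := p) (q := y) (fun w hw1 hwT => by
      have := hfarw w hw1 w hwT
      rw [dist_self] at this
      linarith)
    (fun w => (¬ Active T w ∧ near T w = near T p) ∨ ∃ z ∈ net T, near T p = cl T z)
    (Or.inl ⟨h, rfl⟩) (by
      rintro w - w' - hs (⟨h1, h2⟩ | h1)
      · by_cases hw' : Active T w'
        · right
          exact ⟨rep T w', rep_mem hT hw', h2 ▸ near_of_step hT hs.symm hw' h1⟩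
        · left
          refine ⟨hw', ?_⟩
          rw [← h2]
          have h5 := rr_nonneg T w
          have h6 := rr_nonneg T w'
          exact (near_eq hT hs.1 hs.2.1 h1 hw' (by linarith [hs.2.2.1]) (by linarith [hs.2.2.2])).symm
      · exact Or.inr h1)
  rcases hfin with ⟨h1, -⟩ | h1
  · exact absurd hyact h1
  · exact h1

open Classical in
/-- A finite set of nodes which contains the nodes of all points. -/
noncomputable def nodes (T : Finset E) : Finset (E ⊕ Finset E) :=
  (net T).image Sum.inl ∪ (T.image fun a => Sum.inr {a}) ∪ (net T).image fun z => Sum.inr (cl T z)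

open Classical in
/-- A finite set of pairs which contains the pairs of nodes of points `p`, `q` with `Step T p q`. -/
noncomputable def pairs (T : Finset E) : Finset ((E ⊕ Finset E) × (E ⊕ Finset E)) :=
  ((net T).biUnion fun z => ((net T).filter fun z' => dist z z' ≤ rr T z / 4).image fun z' =>
      (Sum.inl z, Sum.inl z')) ∪
    ((net T).image fun z => (Sum.inl z, Sum.inr (cl T z))) ∪
    ((net T).image fun z => (Sum.inr (cl T z), Sum.inl z)) ∪
    (nodes T).image fun ν => (ν, ν)

lemma node_mem {T : Finset E} (hT : T.Nonempty) {p : E} (h0 : 0 < rr T p) : node T p ∈ nodes T := by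
  classical
  by_cases h : Active T p
  · rw [node_active h, nodes]
    exact mem_union_left _ (mem_union_left _ (mem_image_of_mem _ (rep_mem hT h)))
  · rw [node_inactive h, nodes]
    rcases near_cases hT h0 h with ⟨a, ha, h1⟩ | ⟨z, hz, h1⟩
    · exact mem_union_left _ (mem_union_right _ (mem_image.2 ⟨a, ha, by rw [h1]⟩))
    · exact mem_union_right _ (mem_image.2 ⟨z, hz, by rw [h1]⟩)

lemma pair_mem {T : Finset E} (hT : T.Nonempty) {p q : E} (hs : Step T p q) :
    (node T p, node T q) ∈ pairs T := by
  classical
  by_cases hp : Active T p <;> by_cases hq : Active T q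
  · rw [node_active hp, node_active hq, pairs]
    refine mem_union_left _ (mem_union_left _ (mem_union_left _ (mem_biUnion.2
      ⟨rep T p, rep_mem hT hp, mem_image.2 ⟨rep T q, mem_filter.2 ⟨rep_mem hT hq, ?_⟩, rfl⟩⟩)))
    have h1 := (not_sep (rep_sep hT hp)).1
    have h2 := (not_sep (rep_sep hT hq)).2
    have h3 := hs.2.2.1
    have h4 := rr_lip T p (rep T p)
    have h5 := rr_lip T q p
    rw [dist_comm q p] at h5
    have h6 := dist_triangle4 (rep T p) p q (rep T q)
    rw [dist_comm (rep T p) p] at h6
    have h7 := rr_nonneg T (rep T p)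
    linarith
  · rw [node_active hp, node_inactive hq, pairs, near_of_step hT hs hp hq]
    exact mem_union_left _ (mem_union_left _ (mem_union_right _
      (mem_image.2 ⟨rep T p, rep_mem hT hp, rfl⟩)))
  · rw [node_inactive hp, node_active hq, pairs, near_of_step hT hs.symm hq hp]
    exact mem_union_left _ (mem_union_right _
      (mem_image.2 ⟨rep T q, rep_mem hT hq, rfl⟩))
  · have h1 : near T p = near T q := by
      have h5 := rr_nonneg T p
      have h6 := rr_nonneg T q
      exact near_eq hT hs.1 hs.2.1 hp hq (by linarith [hs.2.2.1]) (by linarith [hs.2.2.2])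
    have h2 : node T p = node T q := by rw [node_inactive hp, node_inactive hq, h1]
    rw [pairs, h2]
    exact mem_union_right _ (mem_image.2 ⟨_, node_mem hT hs.2.1, rfl⟩)

/-- The constant for the number of nodes. -/
noncomputable def kN (E : Type) [NormedAddCommGroup E] [NormedSpace ℝ E] [FiniteDimensional ℝ E] :
    ℕ := 2 * cst E 14688 + 1

/-- The constant for the number of pairs. -/
noncomputable def kP (E : Type) [NormedAddCommGroup E] [NormedSpace ℝ E] [FiniteDimensional ℝ E] :
    ℕ := cst E 14688 * cst E 6 + 2 * cst E 14688 + kN E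

lemma nodes_card {T : Finset E} (hT : T.Nonempty) : (nodes T).card ≤ kN E * T.card := by
  classical
  have h1 := net_card hT
  have h2 : (nodes T).card ≤ (net T).card + T.card + (net T).card := by
    refine (card_union_le _ _).trans (add_le_add ((card_union_le _ _).trans
      (add_le_add card_image_le card_image_le)) card_image_le)
  rw [kN]
  nlinarith

lemma pairs_card {T : Finset E} (hT : T.Nonempty) : (pairs T).card ≤ kP E * T.card := by
  classical
  have h1 := net_card hT
  have h2 := nodes_card hT
  have h3 : ((net T).biUnion fun z => ((net T).filter fun z' => dist z z' ≤ rr T z / 4).image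
      fun z' => ((Sum.inl z, Sum.inl z') : (E ⊕ Finset E) × (E ⊕ Finset E))).card ≤
      (net T).card * cst E 6 := by
    refine card_biUnion_le.trans ((Finset.sum_le_card_nsmul _ _ (cst E 6) ?_).trans
      (by rw [smul_eq_mul]))
    intro z hz
    have hz0 := (net_active hT hz).1
    refine card_image_le.trans (pack 6 _ (fun z' => z') z (3 * rr T z / 64) (by positivity) ?_ ?_)
    · intro z' hz'
      have := (mem_filter.1 hz').2
      rw [dist_comm] at this
      linarith
    · intro z' hz' z'' hz'' hne
      obtain ⟨h4, h5⟩ := mem_filter.1 hz'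
      obtain ⟨h6, h7⟩ := mem_filter.1 hz''
      have h8 := (net_sep hT h4 h6 hne).1
      have h9 := rr_lip T z z'
      linarith
  have h4 : (pairs T).card ≤ (net T).card * cst E 6 + (net T).card + (net T).card +
      (nodes T).card := by
    refine (card_union_le _ _).trans (add_le_add ((card_union_le _ _).trans
      (add_le_add ((card_union_le _ _).trans (add_le_add h3 card_image_le)) card_image_le))
      card_image_le)
  have h5 : (net T).card * cst E 6 ≤ cst E 14688 * T.card * cst E 6 := Nat.mul_le_mul_right _ h1
  rw [kP]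
  nlinarith

end Pool.Agent.E8helper35.Steiner
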