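import Pool.Agent.E8helper35.Steiner.Pack

/-!
# The scales of a finite set

`T` is a finite set of points of `E` and `rr T p` the distance of `p` to `T`. A point is active if
`T` has two points at distance at least `rr T p / 2` in the ball of radius `8 rr T p` around it.
-/

set_option autoImplicit false

namespace Pool.Agent.E8helper35.Steiner

open Finset Metric

variable {E : Type} [NormedAddCommGroup E]

/-- The distance to `T`. -/
noncomputable def rr (T : Finset E) (p : E) : ℝ := infDist p (T : Set E)

lemma rr_nonneg (T : Finset E) (p : E) : 0 ≤ rr T p := infDist_nonneg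

lemma rr_le {T : Finset E} {a : E} (ha : a ∈ T) (p : E) : rr T p ≤ dist a p := by
  rw [dist_comm]
  exact infDist_le_dist_of_mem ha

lemma exists_rr {T : Finset E} (hT : T.Nonempty) (p : E) : ∃ a ∈ T, dist a p = rr T p := by
  obtain ⟨a, ha, h⟩ := T.finite_toSet.isCompact.exists_infDist_eq_dist (by simpa using hT) p
  exact ⟨a, ha, by rw [rr, h, dist_comm]⟩

lemma rr_lip (T : Finset E) (p q : E) : rr T p ≤ rr T q + dist p q := infDist_le_infDist_add_dist

lemma rr_pos {T : Finset E} (hT : T.Nonempty) {p : E} (hp : p ∉ T) : 0 < rr T p := by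
  obtain ⟨a, ha, h⟩ := exists_rr hT p
  rw [← h, dist_pos]
  rintro rfl
  exact hp ha

/-- `T` has two points at distance at least `rr T p / 2` in the ball of radius `8 rr T p`. -/
def Active (T : Finset E) (p : E) : Prop :=
  0 < rr T p ∧ ∃ a ∈ T, ∃ b ∈ T, dist a p ≤ 8 * rr T p ∧ dist b p ≤ 8 * rr T p ∧
    rr T p / 2 ≤ dist a b

open Classical in
/-- The points of `T` in the ball of radius `8 rr T p`. -/
noncomputable def near (T : Finset E) (p : E) : Finset E := T.filter fun a => dist a p ≤ 8 * rr T p

lemma mem_near {T : Finset E} {p a : E} : a ∈ near T p ↔ a ∈ T ∧ dist a p ≤ 8 * rr T p := by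
  simp [near]

lemma near_dist {T : Finset E} {p a b : E} (h0 : 0 < rr T p) (h : ¬ Active T p)
    (ha : a ∈ near T p) (hb : b ∈ near T p) : dist a b < rr T p / 2 := by
  by_contra hc
  push Not at hc
  rw [mem_near] at ha hb
  exact h ⟨h0, a, ha.1, b, hb.1, ha.2, hb.2, hc⟩

lemma near_le' {T : Finset E} (hT : T.Nonempty) {p a : E} (h0 : 0 < rr T p) (h : ¬ Active T p)
    (ha : a ∈ near T p) : dist a p < 3 / 2 * rr T p := by
  obtain ⟨b, hb, hb2⟩ := exists_rr hT p
  have h1 := near_dist h0 h ha (mem_near.2 ⟨hb, by linarith⟩)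
  have h2 := dist_triangle a b p
  linarith

lemma near_nonempty {T : Finset E} (hT : T.Nonempty) (p : E) : (near T p).Nonempty := by
  obtain ⟨b, hb, hb2⟩ := exists_rr hT p
  exact ⟨b, mem_near.2 ⟨hb, by linarith [rr_nonneg T p]⟩⟩

lemma near_subset {T : Finset E} (hT : T.Nonempty) {p q : E} (h0 : 0 < rr T p)
    (h : ¬ Active T p) (hpq : dist p q ≤ rr T p / 2) : near T p ⊆ near T q := by
  intro a ha
  have h1 := near_le' hT h0 h ha
  have h2 := dist_triangle a p q
  have h3 := rr_lip T p q
  exact mem_near.2 ⟨(mem_near.1 ha).1, by linarith⟩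

lemma near_eq {T : Finset E} (hT : T.Nonempty) {p q : E} (h0 : 0 < rr T p) (h0' : 0 < rr T q)
    (h : ¬ Active T p) (h' : ¬ Active T q) (hpq : dist p q ≤ rr T p / 2)
    (hqp : dist p q ≤ rr T q / 2) : near T p = near T q :=
  Subset.antisymm (near_subset hT h0 h hpq) (near_subset hT h0' h' (by rwa [dist_comm]))

/-! ### Farthest point order -/

section greedy

open scoped Classical

variable (T : Finset E)

/-- A point of `T` which is farthest from `S`. -/
noncomputable def far (S : Finset E) : E :=
  if h : T.Nonempty then (T.exists_max_image (fun a => infDist a (S : Set E)) h).choose else 0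

lemma far_mem {T : Finset E} (hT : T.Nonempty) (S : Finset E) : far T S ∈ T := by
  rw [far, dif_pos hT]
  exact (T.exists_max_image (fun a => infDist a (S : Set E)) hT).choose_spec.1

lemma le_far {T : Finset E} (hT : T.Nonempty) (S : Finset E) {a : E} (ha : a ∈ T) :
    infDist a (S : Set E) ≤ infDist (far T S) (S : Set E) := by
  rw [far, dif_pos hT]
  exact (T.exists_max_image (fun a => infDist a (S : Set E)) hT).choose_spec.2 a ha

/-- The first points in the farthest point order. -/
noncomputable def gr : ℕ → Finset E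
  | 0 => {far T ∅}
  | j + 1 => insert (far T (gr j)) (gr j)

/-- The distance of the next point to the first points. -/
noncomputable def lam (j : ℕ) : ℝ := infDist (far T (gr T j)) (gr T j : Set E)

variable {T}

lemma gr_subset (hT : T.Nonempty) (j : ℕ) : gr T j ⊆ T := by
  induction j with
  | zero => rw [gr]; simpa using far_mem hT ∅
  | succ j ih => rw [gr]; exact insert_subset (far_mem hT _) ih

lemma gr_nonempty (j : ℕ) : (gr T j).Nonempty := by
  cases j with
  | zero => rw [gr]; simp
  | succ j => rw [gr]; exact insert_nonempty _ _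

lemma lam_succ (hT : T.Nonempty) (j : ℕ) : lam T (j + 1) ≤ lam T j := by
  refine le_trans ?_ (le_far hT (gr T j) (far_mem hT (gr T (j + 1))))
  refine infDist_le_infDist_of_subset ?_ (by simpa using gr_nonempty (T := T) j)
  rw [gr]
  simp

lemma lam_anti (hT : T.Nonempty) : Antitone (lam T) := antitone_nat_of_succ_le (lam_succ hT)

lemma card_gr (hT : T.Nonempty) (j : ℕ) (h : ∀ i < j, 0 < lam T i) : (gr T j).card = j + 1 := by
  induction j with
  | zero => rw [gr]; simp
  | succ j ih =>
    rw [gr, card_insert_of_notMem, ih fun i hi => h i (by omega)]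
    intro hmem
    have h1 := h j (by omega)
    rw [lam, infDist_zero_of_mem (mem_coe.2 hmem)] at h1
    exact lt_irrefl _ h1

lemma lt_of_lam_pos (hT : T.Nonempty) {j : ℕ} (h : 0 < lam T j) : j < T.card := by
  have h1 := card_gr hT (j + 1) fun i hi => lt_of_lt_of_le h (lam_anti hT (by omega))
  have h2 := card_le_card (gr_subset hT (j + 1))
  omega

/-- Two different points among the first ones are at distance at least some `lam T j`. -/
lemma gr_dist (m : ℕ) {a b : E} (ha : a ∈ gr T m) (hb : b ∈ gr T m) (hab : a ≠ b) :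
    ∃ j < m, lam T j ≤ dist a b ∧ (far T (gr T j) = a ∨ far T (gr T j) = b) := by
  induction m with
  | zero =>
    rw [gr, mem_singleton] at ha hb
    exact absurd (ha.trans hb.symm) hab
  | succ m ih =>
    rw [gr, mem_insert] at ha hb
    by_cases ham : a ∈ gr T m <;> by_cases hbm : b ∈ gr T m
    · obtain ⟨j, hj, h⟩ := ih ham hbm
      exact ⟨j, by omega, h⟩
    · have hb' := hb.resolve_right hbm
      refine ⟨m, by omega, ?_, Or.inr hb'.symm⟩
      rw [lam, ← hb', dist_comm]
      exact infDist_le_dist_of_mem ham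
    · have ha' := ha.resolve_right ham
      refine ⟨m, by omega, ?_, Or.inl ha'.symm⟩
      rw [lam, ← ha']
      exact infDist_le_dist_of_mem hbm
    · exact absurd ((ha.resolve_right ham).trans (hb.resolve_right hbm).symm) hab

lemma gr_cover (hT : T.Nonempty) {m : ℕ} {s : ℝ} (h : lam T m ≤ s) {a : E} (ha : a ∈ T) :
    ∃ b ∈ gr T m, dist a b ≤ s := by
  obtain ⟨b, hb, hb2⟩ := (gr T m).finite_toSet.isCompact.exists_infDist_eq_dist
    (by simpa using gr_nonempty (T := T) m) a
  exact ⟨b, hb, hb2 ▸ (le_far hT (gr T m) ha).trans h⟩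

/-- Every active point is charged to a number `j < |T|` at the same scale. -/
lemma active_charge (hT : T.Nonempty) {z : E} (hz : Active T z) :
    ∃ j < T.card, rr T z / 6 < lam T j ∧ lam T j ≤ 17 * rr T z ∧
      dist (far T (gr T j)) z ≤ 9 * rr T z := by
  obtain ⟨h0, a, ha, b, hb, haz, hbz, hab⟩ := hz
  set s := rr T z / 6 with hs
  have hs0 : 0 < s := by positivity
  have hex : ∃ m, lam T m ≤ s := by
    refine ⟨T.card, ?_⟩
    by_contra hc
    push Not at hc
    exact absurd (lt_of_lam_pos hT (hs0.trans hc)) (lt_irrefl _)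
  classical
  let m := Nat.find hex
  have hm : lam T m ≤ s := Nat.find_spec hex
  have hlt : ∀ j < m, s < lam T j := fun j hj => not_le.1 (Nat.find_min hex hj)
  obtain ⟨a', ha', haa⟩ := gr_cover hT hm ha
  obtain ⟨b', hb', hbb⟩ := gr_cover hT hm hb
  have h1 : dist a b ≤ dist a a' + dist a' b' + dist b b' := by
    have := dist_triangle4 a a' b' b
    rw [dist_comm b' b] at this
    exact this
  have h2 : dist a' b' ≤ dist a a' + dist a b + dist b b' := by
    have := dist_triangle4 a' a b b'
    rw [dist_comm a' a] at this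
    exact this
  have hne : a' ≠ b' := by
    rintro rfl
    rw [dist_self] at h1
    linarith
  obtain ⟨j, hj, h3, h4⟩ := gr_dist m ha' hb' hne
  have h5 := hlt j hj
  have h6 : dist a b ≤ 16 * rr T z := by
    have := dist_triangle_right a b z
    linarith
  refine ⟨j, lt_of_lam_pos hT (hs0.trans h5), h5, by linarith, ?_⟩
  rcases h4 with h4 | h4
  · rw [h4]
    have := dist_triangle_left a' z a
    linarith
  · rw [h4]
    have := dist_triangle_left b' z b
    linarith

end greedy

/-- `dist z z'` is more than a sixteenth of the distances to `T`. -/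
def Sep (T : Finset E) (z z' : E) : Prop := rr T z / 16 < dist z z' ∧ rr T z' / 16 < dist z z'

variable [NormedSpace ℝ E] [FiniteDimensional ℝ E]

/-- The number of separated active points is linear in `|T|`. -/
lemma card_active {T : Finset E} (hT : T.Nonempty) (Z : Finset E) (hZ : ∀ z ∈ Z, Active T z)
    (hsep : ∀ z ∈ Z, ∀ z' ∈ Z, z ≠ z' → Sep T z z') : Z.card ≤ cst E 14688 * T.card := by
  classical
  have hch : ∀ z ∈ Z, ∃ j < T.card, rr T z / 6 < lam T j ∧ lam T j ≤ 17 * rr T z ∧
      dist (far T (gr T j)) z ≤ 9 * rr T z := fun z hz => active_charge hT (hZ z hz)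
  choose! f hf1 hf2 hf3 hf4 using hch
  have h1 : Z.card ≤ cst E 14688 * (Z.image f).card := by
    refine card_le_mul_card_image Z _ ?_
    intro j hj
    obtain ⟨z₀, hz₀, hz₀'⟩ := mem_image.1 hj
    have hl : 0 < lam T j := by
      rw [← hz₀']
      refine lt_of_le_of_lt ?_ (hf2 z₀ hz₀)
      have := rr_nonneg T z₀
      positivity
    refine pack 14688 _ (fun z => z) (far T (gr T j)) (lam T j / 272) (by positivity) ?_ ?_
    · intro z hz
      obtain ⟨h2, h3⟩ := mem_filter.1 hz
      have h4 := hf4 z h2
      have h5 := hf2 z h2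
      rw [h3, dist_comm] at h4
      rw [h3] at h5
      linarith
    · intro z hz z' hz' hne
      obtain ⟨h2, h3⟩ := mem_filter.1 hz
      obtain ⟨h4, h5⟩ := mem_filter.1 hz'
      have h6 := (hsep z h2 z' h4 hne).1
      have h7 := hf3 z h2
      rw [h3] at h7
      linarith
  refine h1.trans (Nat.mul_le_mul_left _ ?_)
  rw [← card_range T.card]
  refine card_le_card ?_
  intro j hj
  obtain ⟨z₀, hz₀, rfl⟩ := mem_image.1 hj
  exact mem_range.2 (hf1 z₀ hz₀)

/-- A net of the active points. -/
theorem exists_net {T : Finset E} (hT : T.Nonempty) : ∃ Z : Finset E,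
    Z.card ≤ cst E 14688 * T.card ∧ (∀ z ∈ Z, Active T z) ∧
    (∀ z ∈ Z, ∀ z' ∈ Z, z ≠ z' → Sep T z z') ∧ ∀ p, Active T p → ∃ z ∈ Z, ¬ Sep T p z := by
  classical
  let P : ℕ → Prop := fun k => ∃ Z : Finset E, (∀ z ∈ Z, Active T z) ∧
    (∀ z ∈ Z, ∀ z' ∈ Z, z ≠ z' → Sep T z z') ∧ Z.card = k
  have hP0 : P 0 := ⟨∅, by simp, by simp, rfl⟩
  have hbd : ∀ k, P k → k ≤ cst E 14688 * T.card := by
    rintro k ⟨Z, h1, h2, rfl⟩
    exact card_active hT Z h1 h2
  let k := Nat.findGreatest P (cst E 14688 * T.card)
  obtain ⟨Z, h1, h2, h3⟩ : P k := Nat.findGreatest_spec (Nat.zero_le _) hP0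
  refine ⟨Z, card_active hT Z h1 h2, h1, h2, ?_⟩
  intro p hp
  by_contra hcon
  push Not at hcon
  have hpZ : p ∉ Z := by
    intro hmem
    have := (hcon p hmem).1
    rw [dist_self] at this
    linarith [hp.1]
  have h4 : P (k + 1) := by
    refine ⟨insert p Z, ?_, ?_, by rw [card_insert_of_notMem hpZ, h3]⟩
    · intro z hz
      rcases mem_insert.1 hz with rfl | hz
      · exact hp
      · exact h1 z hz
    · intro z hz z' hz' hne
      rcases mem_insert.1 hz with hz1 | hz1 <;> rcases mem_insert.1 hz' with hz2 | hz2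
      · exact absurd (hz1.trans hz2.symm) hne
      · rw [hz1]
        exact hcon z' hz2
      · rw [hz2]
        have := hcon z hz1
        exact ⟨by rw [dist_comm]; exact this.2, by rw [dist_comm]; exact this.1⟩
      · exact h2 z hz1 z' hz2 hne
  have h5 := Nat.le_findGreatest (hbd _ h4) h4
  omega

end Pool.Agent.E8helper35.Steiner
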