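import Pool.Agent.E8helper35.Steiner.Node
import Pool.Agent.E8helper35.Steiner.Annulus

/-!
# The number of edges which visit a node
-/

set_option autoImplicit false

namespace Pool.Agent.E8helper35.Steiner

open Finset Metric

variable {E : Type} [NormedAddCommGroup E] [NormedSpace ℝ E]

/-- The edge `e` has a point with node `ν`. -/
def Vis {V : Type} [FiniteDimensional ℝ E] (T : Finset E) (x : V → E) (ν : E ⊕ Finset E)
    (e : Sym2 V) : Prop :=
  ∃ p ∈ seg x e, 0 < rr T p ∧ node T p = ν

variable [FiniteDimensional ℝ E]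

/-- The bound for the number of edges which visit a node. -/
noncomputable def kK (E : Type) [NormedAddCommGroup E] [NormedSpace ℝ E] [FiniteDimensional ℝ E] :
    ℕ := max (k1 E) (k3 E)

variable {V : Type} [Fintype V] {G : SimpleGraph V} {x : V → E} {A : Set V} {T : Finset E}

theorem visits_le (h : Good G x A) (hT : T.Nonempty) (hTA : ∀ p, p ∈ T ↔ ∃ a ∈ A, x a = p)
    (ν : E ⊕ Finset E) (F : Finset (Sym2 V)) (hF : ∀ e ∈ F, e ∈ G.edgeSet ∧ Vis T x ν e) :
    F.card ≤ kK E := by
  classical
  rcases F.eq_empty_or_nonempty with rfl | ⟨e₀, he₀⟩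
  · simp
  rcases ν with z | X
  · refine le_trans ?_ (le_max_left _ _)
    have hz : ∀ e ∈ F, ∃ q ∈ seg x e, 0 < rr T z ∧ dist q z ≤ rr T z / 8 := by
      intro e he
      obtain ⟨q, hq1, hq2, hq3⟩ := (hF e he).2
      by_cases hact : Active T q
      · rw [node_active hact, Sum.inl.injEq] at hq3
        have h1 := (not_sep (rep_sep hT hact)).1
        have h2 := (net_active hT (rep_mem hT hact)).1
        rw [hq3] at h1 h2
        exact ⟨q, hq1, h2, by linarith⟩
      · rw [node_inactive hact] at hq3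
        exact absurd hq3 (by simp)
    obtain ⟨-, -, hz0, -⟩ := hz e₀ he₀
    refine near_le h (p := z) hz0 ?_ F (fun e he => (hF e he).1) ?_
    · intro a ha
      exact rr_le ((hTA _).2 ⟨a, ha, rfl⟩) z
    · intro e he
      obtain ⟨q, hq1, -, hq2⟩ := hz e he
      exact ⟨q, hq1, hq2⟩
  · refine le_trans ?_ (le_max_right _ _)
    have hX : ∀ e ∈ F, ∃ q, q ∈ seg x e ∧ 0 < rr T q ∧ ¬ Active T q ∧ near T q = X := by
      intro e he
      obtain ⟨q, hq1, hq2, hq3⟩ := (hF e he).2
      by_cases hact : Active T q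
      · rw [node_active hact] at hq3
        exact absurd hq3 (by simp)
      · rw [node_inactive hact, Sum.inr.injEq] at hq3
        exact ⟨q, hq1, hq2, hact, hq3⟩
    choose! y hy1 hy2 hy3 hy4 using hX
    obtain ⟨c, hc⟩ := near_nonempty hT (y e₀)
    obtain ⟨a₀, ha₀, rfl⟩ := (hTA c).1 (mem_near.1 hc).1
    rw [hy4 e₀ he₀] at hc
    obtain ⟨b, hb, hmax⟩ := X.exists_max_image (fun b => dist b (x a₀)) ⟨_, hc⟩
    refine annulus_le h ha₀ (D := dist b (x a₀)) dist_nonneg {v | x v ∈ X} F
      (fun e he => (hF e he).1) y hy1 ?_ ?_ ?_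
    · intro e he
      have h1 := near_dist (hy2 e he) (hy3 e he) (a := b) (b := x a₀) (by rwa [hy4 e he])
        (by rwa [hy4 e he])
      have h2 := rr_le ((hTA _).2 ⟨a₀, ha₀, rfl⟩) (y e)
      rw [dist_comm (y e)]
      linarith
    · intro a _ haX
      exact hmax _ haX
    · intro a ha haX e he
      have h1 := near_le' hT (hy2 e he) (hy3 e he) (a := x a₀) (by rwa [hy4 e he])
      have h2 : 8 * rr T (y e) < dist (x a) (y e) := by
        by_contra hcon
        push Not at hcon
        apply haX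
        rw [Set.mem_setOf_eq, ← hy4 e he]
        exact mem_near.2 ⟨(hTA _).2 ⟨a, ha, rfl⟩, hcon⟩
      have h3 := dist_triangle_right (x a) (y e) (x a₀)
      have h4 := hy2 e he
      rw [dist_comm (y e) (x a₀)] at h3 ⊢
      linarith

/-- A terminal on an edge is an endpoint of the edge. -/
lemma terminal_on (h : Good G x A) {e : Sym2 V} (he : e ∈ G.edgeSet) {a : V} (ha : a ∈ A)
    (hae : x a ∈ seg x e) : a ∈ e := by
  obtain ⟨w, hw⟩ : ∃ w, G.Adj a w := by
    have h1 := h.leaf a ha
    obtain ⟨w, hw⟩ := Set.ncard_eq_one.1 h1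
    exact ⟨w, by rw [← SimpleGraph.mem_neighborSet, hw]; rfl⟩
  by_contra hne
  induction e using Sym2.ind with
  | _ u v =>
    rw [SimpleGraph.mem_edgeSet] at he
    have h1 : s(a, w) ≠ s(u, v) := by
      intro heq
      exact hne (heq ▸ Sym2.mem_mk_left a w)
    have h2 := h.sep u v he s(a, w) hw h1 (x a) hae (x a) (left_mem_segment ℝ _ _)
    rw [dist_self, min_le_iff] at h2
    rcases h2 with h2 | h2
    · have := h.inj (dist_le_zero.1 h2)
      exact hne (this ▸ Sym2.mem_mk_left u v)
    · have := h.inj (dist_le_zero.1 h2)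
      exact hne (this ▸ Sym2.mem_mk_right u v)

/-- The segment between two points of an edge which are not terminals contains no terminal. -/
lemma seg_disjoint (h : Good G x A) (hTA : ∀ p, p ∈ T ↔ ∃ a ∈ A, x a = p) {e : Sym2 V}
    (he : e ∈ G.edgeSet) {p q : E} (hp : p ∈ seg x e) (hq : q ∈ seg x e) (hpT : p ∉ T)
    (hqT : q ∉ T) : ∀ w ∈ segment ℝ p q, w ∉ T := by
  intro w hw hwT
  obtain ⟨a, ha, rfl⟩ := (hTA w).1 hwT
  have hwe : x a ∈ seg x e := by
    induction e using Sym2.ind with
    | _ u v =>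
      rw [seg_mk] at hp hq ⊢
      exact (convex_segment _ _).segment_subset hp hq hw
  have h1 := terminal_on h he ha hwe
  obtain ⟨v, rfl⟩ := h1
  rw [seg_mk] at hp hq
  have h2 : x a ∈ (segment ℝ (x a) (x v)).extremePoints ℝ := by
    rw [mem_extremePoints]
    refine ⟨left_mem_segment ℝ _ _, ?_⟩
    intro y hy z hz hyz
    have hav : x a ≠ x v := fun hc => (SimpleGraph.mem_edgeSet _).1 he |>.ne (h.inj hc)
    rw [segment_eq_image_lineMap] at hy hz
    obtain ⟨s, hs, rfl⟩ := hy
    obtain ⟨t, ht, rfl⟩ := hz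
    rw [openSegment_eq_image_lineMap] at hyz
    obtain ⟨r, hr, hr2⟩ := hyz
    have h3 : AffineMap.lineMap (AffineMap.lineMap (x a) (x v) s)
        (AffineMap.lineMap (x a) (x v) t) r =
        (AffineMap.lineMap (x a) (x v) (AffineMap.lineMap s t r) : E) := by
      rw [AffineMap.apply_lineMap]
    rw [h3] at hr2
    have h4 : (AffineMap.lineMap s t r : ℝ) = 0 := by
      have h5 : (AffineMap.lineMap (x a) (x v) (AffineMap.lineMap s t r : ℝ) : E) =
          AffineMap.lineMap (x a) (x v) (0 : ℝ) := by rw [hr2, AffineMap.lineMap_apply_zero]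
      exact AffineMap.lineMap_injective ℝ hav h5
    rw [AffineMap.lineMap_apply_ring'] at h4
    have h5 : s = 0 := by nlinarith [hs.1, ht.1, hr.1, hr.2, mul_nonneg hr.1.le ht.1, mul_nonneg (by linarith [hr.2] : (0:ℝ) ≤ 1 - r) hs.1]
    have h6 : t = 0 := by
      subst h5
      have : r * t = 0 := by linarith
      rcases mul_eq_zero.1 this with h7 | h7
      · exact absurd h7 hr.1.ne'
      · exact h7
    rw [h5, h6]
    simp
  have h3 := (mem_extremePoints_iff_forall_segment.1 h2).2 p hp q hq hw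
  rcases h3 with h3 | h3
  · exact hpT (h3 ▸ hwT)
  · exact hqT (h3 ▸ hwT)

end Pool.Agent.E8helper35.Steiner
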